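import Pool.Agent.KB.Defs

/-! Integrality of character values. -/

namespace Pool.Agent.KB

/-- HINT: the trace is the sum of the roots of the characteristic polynomial, each root `x` is an
eigenvalue, hence `x ^ (n + 1) = x` and `x` is integral. -/
theorem Int_trace {V : Type} [AddCommGroup V] [Module ℂ V] [FiniteDimensional ℂ V]
    (f : Module.End ℂ V) (n : ℕ) (hn : 0 < n) (hf : f ^ (n + 1) = f) :
    IsIntegral ℤ (LinearMap.trace ℂ V f) := by
  rw [Module.End.trace_eq_sum_roots_charpoly_of_splits (IsAlgClosed.splits _)]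
  refine IsIntegral.multiset_sum fun x hx => ?_
  have h1 : f.HasEigenvalue x :=
    (Module.End.hasEigenvalue_iff_isRoot_charpoly f x).2 (Polynomial.isRoot_of_mem_roots hx)
  obtain ⟨v, hv⟩ := h1.exists_hasEigenvector
  have h2 : x ^ (n + 1) = x := by
    have h3 := hv.pow_apply (n + 1)
    rw [hf, hv.apply_eq_smul] at h3
    exact (smul_left_injective ℂ hv.2 h3).symm
  refine ⟨Polynomial.X ^ (n + 1) - Polynomial.X, ?_, ?_⟩
  · exact Polynomial.monic_X_pow_sub (by
      rw [Polynomial.degree_X]
      exact_mod_cast Nat.succ_lt_succ hn)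
  · simp [Polynomial.eval₂_sub, h2]

/-- Corollary of `Int_trace`. -/
theorem Int_char {G V : Type} [Group G] [Finite G] [AddCommGroup V] [Module ℂ V]
    [FiniteDimensional ℂ V] (ρ : Representation ℂ G V) (g : G) : IsIntegral ℤ (ρ.character g) := by
  refine Int_trace (ρ g) (orderOf g) (orderOf_pos g) ?_
  rw [pow_succ, ← map_pow, pow_orderOf_eq_one, map_one, one_mul]

end Pool.Agent.KB
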