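import Pool.Agent.KB.Fix

/-! Sums over the elements of `q`-power order. -/

namespace Pool.Agent.KB

/-- HINT: if `x` fixes the coset `hQ` then `h⁻¹ x h ∈ Q`, so the order is a power of `q`. -/
theorem Syl_fix {H : Type} [Group H] [Finite H] (q : ℕ) [Fact q.Prime] (Q : Sylow q H) (x : H)
    (hx : ¬ ∃ k : ℕ, orderOf x = q ^ k) :
    Nat.card {y : H ⧸ (Q : Subgroup H) // x • y = y} = 0 := by
  rw [Nat.card_eq_zero]
  left
  refine ⟨?_⟩
  rintro ⟨y, hy⟩
  revert hy
  refine QuotientGroup.induction_on y ?_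
  intro h hy
  apply hx
  have h1 : h⁻¹ * x * h ∈ (Q : Subgroup H) := by
    have h2 : ((x * h : H) : H ⧸ (Q : Subgroup H)) = (h : H ⧸ (Q : Subgroup H)) := hy
    have h3 := QuotientGroup.eq.1 h2.symm
    simpa [mul_assoc] using h3
  obtain ⟨k, hk⟩ := (IsPGroup.iff_orderOf.1 Q.isPGroup') ⟨_, h1⟩
  refine ⟨k, ?_⟩
  rw [Subgroup.orderOf_mk] at hk
  rw [← hk]
  have h4 : h⁻¹ * x * h = MulAut.conj h⁻¹ x := by simp
  rw [h4]
  exact (orderOf_injective (MulAut.conj h⁻¹).toMonoidHom (MulAut.conj h⁻¹).injective x).symm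

/-- HINT: `IsPGroup.card_modEq_card_fixedPoints` for the action of `Subgroup.zpowers x` on
`H ⧸ Q`, whose cardinality is prime to `q`. -/
theorem Syl_ndvd {H : Type} [Group H] [Finite H] (q : ℕ) [Fact q.Prime] (Q : Sylow q H) (x : H)
    (hx : ∃ k : ℕ, orderOf x = q ^ k) :
    ¬ q ∣ Nat.card {y : H ⧸ (Q : Subgroup H) // x • y = y} := by
  obtain ⟨k, hk⟩ := hx
  have hP : IsPGroup q (Subgroup.zpowers x) :=
    IsPGroup.of_card (n := k) (by rw [Nat.card_zpowers, hk])
  have h1 := hP.card_modEq_card_fixedPoints (H ⧸ (Q : Subgroup H))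
  have h2 : Nat.card (MulAction.fixedPoints (Subgroup.zpowers x) (H ⧸ (Q : Subgroup H))) =
      Nat.card {y : H ⧸ (Q : Subgroup H) // x • y = y} := by
    refine Nat.card_congr (Equiv.subtypeEquivRight ?_)
    intro y
    constructor
    · intro h
      exact h ⟨x, Subgroup.mem_zpowers x⟩
    · intro h
      rintro ⟨g, hg⟩
      obtain ⟨j, rfl⟩ := Subgroup.mem_zpowers_iff.1 hg
      change (x ^ j) • y = y
      have hst : x ∈ MulAction.stabilizer H y := h
      exact (MulAction.stabilizer H y).zpow_mem hst j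
  rw [h2] at h1
  intro hd
  have h3 : q ∣ Nat.card (H ⧸ (Q : Subgroup H)) := (Nat.ModEq.dvd_iff h1 dvd_rfl).2 hd
  exact Sylow.not_dvd_index Q h3

theorem Syl_int {H V : Type} [Group H] [Fintype H] [AddCommGroup V] [Module ℂ V]
    [FiniteDimensional ℂ V] (ρ : Representation ℂ H V) (z : Module.End ℂ V)
    (hz : ∀ h : H, Commute z (ρ h)) (n : ℕ) (hn : 0 < n) (hzn : z ^ n = 1) (h : H) :
    IsIntegral ℤ (LinearMap.trace ℂ V (z * ρ h)) := by
  have hc : 0 < Nat.card H := Nat.card_pos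
  refine Int_trace _ (n * Nat.card H) (Nat.mul_pos hn hc) ?_
  rw [pow_succ, (hz h).mul_pow, pow_mul, hzn, one_pow, one_mul, ← map_pow, mul_comm n, pow_mul,
    pow_card_eq_one', one_pow, map_one, one_mul]

open Classical in
/-- HINT: put `M = padicValNat q |H|`, `N = φ(q^M)` (`N > 0`) and `X = Fin N → H ⧸ Q`. The number
of fixed points of `h` on `X` is the `N`-th power of the number on `H ⧸ Q`, so it is `0` if the
order of `h` is not a power of `q`, and `≡ 1` modulo `q ^ M` otherwise (`Nat.ModEq.pow_totient`).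
`Fix_sum` gives `∑_{q-elements} trace (z ρ(h)) (1 + q^M c_h) = |H| a`, and `trace (z ρ(h))` is
integral (`Int_trace`: `(z ρ(h))` has finite order), `q ^ M ∣ |H|`. -/
theorem Syl_sum {H V : Type} [Group H] [Fintype H] [AddCommGroup V] [Module ℂ V]
    [FiniteDimensional ℂ V] (ρ : Representation ℂ H V) (z : Module.End ℂ V)
    (hz : ∀ h : H, Commute z (ρ h)) (n : ℕ) (hn : 0 < n) (hzn : z ^ n = 1)
    (q : ℕ) (hq : q.Prime) :
    ∃ a : ℂ, IsIntegral ℤ a ∧
      ∑ h : H with (∃ k : ℕ, orderOf h = q ^ k), LinearMap.trace ℂ V (z * ρ h) =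
        (q : ℂ) ^ padicValNat q (Nat.card H) * a := by
  have := Fact.mk hq
  obtain ⟨Q⟩ : Nonempty (Sylow q H) := inferInstance
  set M := padicValNat q (Nat.card H) with hM
  set N := Nat.totient (q ^ M) with hN
  have hN0 : 0 < N := Nat.totient_pos.2 (pow_pos hq.pos M)
  have : Fintype (H ⧸ (Q : Subgroup H)) := Fintype.ofFinite _
  obtain ⟨a, ha, hsum⟩ := Fix_sum (X := Fin N → H ⧸ (Q : Subgroup H)) ρ z hz n hn hzn
  have hfix : ∀ h : H, Nat.card {x : Fin N → H ⧸ (Q : Subgroup H) // h • x = x} =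
      (Nat.card {y : H ⧸ (Q : Subgroup H) // h • y = y}) ^ N := by
    intro h
    have e : {x : Fin N → H ⧸ (Q : Subgroup H) // h • x = x} ≃
        (Fin N → {y : H ⧸ (Q : Subgroup H) // h • y = y}) :=
      { toFun := fun x i => ⟨x.1 i, congrFun x.2 i⟩
        invFun := fun f => ⟨fun i => (f i).1, funext fun i => (f i).2⟩
        left_inv := fun x => rfl
        right_inv := fun f => rfl }
    rw [Nat.card_congr e, Nat.card_fun, Nat.card_eq_fintype_card (α := Fin N), Fintype.card_fin]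
  have hex : ∀ h : H, ∃ c : ℕ, (∃ k : ℕ, orderOf h = q ^ k) →
      Nat.card {x : Fin N → H ⧸ (Q : Subgroup H) // h • x = x} = 1 + q ^ M * c := by
    intro h
    by_cases hk : ∃ k : ℕ, orderOf h = q ^ k
    · have h1 := Syl_ndvd q Q h hk
      have h2 : Nat.Coprime (Nat.card {y : H ⧸ (Q : Subgroup H) // h • y = y}) (q ^ M) :=
        Nat.Coprime.pow_right M ((Nat.Prime.coprime_iff_not_dvd hq).2 h1).symm
      have h3 := Nat.ModEq.pow_totient h2
      have h4 : 1 ≤ (Nat.card {y : H ⧸ (Q : Subgroup H) // h • y = y}) ^ N := by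
        apply Nat.one_le_pow
        rcases Nat.eq_zero_or_pos (Nat.card {y : H ⧸ (Q : Subgroup H) // h • y = y}) with h0 | h0
        · exact absurd (h0 ▸ dvd_zero q) h1
        · exact h0
      obtain ⟨c, hc⟩ := (Nat.modEq_iff_dvd' h4).1 h3.symm
      refine ⟨c, fun _ => ?_⟩
      rw [hfix]
      omega
    · exact ⟨0, fun h' => absurd h' hk⟩
  choose c hc using hex
  have hdvd : q ^ M ∣ Nat.card H := pow_padicValNat_dvd
  obtain ⟨m, hm⟩ := hdvd
  refine ⟨(m : ℂ) * a - ∑ h : H with (∃ k : ℕ, orderOf h = q ^ k),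
    (c h : ℂ) * LinearMap.trace ℂ V (z * ρ h), ?_, ?_⟩
  · refine IsIntegral.sub (IsIntegral.mul ?_ ha) (IsIntegral.sum _ fun h _ => IsIntegral.mul ?_ ?_)
    · exact isIntegral_algebraMap (R := ℤ) (x := (m : ℤ))
    · exact isIntegral_algebraMap (R := ℤ) (x := (c h : ℤ))
    · exact Syl_int ρ z hz n hn hzn h
  · have h5 : ∑ h : H, LinearMap.trace ℂ V (z * ρ h) *
        (Nat.card {x : Fin N → H ⧸ (Q : Subgroup H) // h • x = x} : ℂ) =
        ∑ h : H with (∃ k : ℕ, orderOf h = q ^ k),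
          (LinearMap.trace ℂ V (z * ρ h) + (q : ℂ) ^ M * ((c h : ℂ) *
            LinearMap.trace ℂ V (z * ρ h))) := by
      rw [Finset.sum_filter]
      refine Finset.sum_congr rfl fun h _ => ?_
      split_ifs with hk
      · rw [hc h hk]
        push_cast
        ring
      · rw [hfix, Syl_fix q Q h hk]
        rw [zero_pow hN0.ne', Nat.cast_zero, mul_zero]
    rw [h5, Finset.sum_add_distrib, ← Finset.mul_sum] at hsum
    have h6 : (Nat.card H : ℂ) = (q : ℂ) ^ M * (m : ℂ) := by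
      rw [hm]
      push_cast
      ring
    rw [h6] at hsum
    rw [mul_sub]
    linear_combination hsum

end Pool.Agent.KB
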