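import Pool.Agent.KB.Defs

/-! The value of a character at the inverse is the complex conjugate. -/

namespace Pool.Agent.KB

namespace InvAux

open Module

theorem tr {V : Type} [AddCommGroup V] [Module ℂ V] [FiniteDimensional ℂ V]
    (f f' : Module.End ℂ V) (n : ℕ) (hn : 0 < n) (hf : f ^ n = 1) (hff : f * f' = 1)
    (hff' : f' * f = 1) :
    LinearMap.trace ℂ V f' = (starRingEnd ℂ) (LinearMap.trace ℂ V f) := by
  classical
  have hn0 : (n : ℂ) ≠ 0 := by exact_mod_cast hn.ne'
  have hss : f.IsSemisimple := by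
    apply Module.End.isSemisimple_of_squarefree_aeval_eq_zero
      (p := (Polynomial.X ^ n - 1 : Polynomial ℂ))
    · exact (Polynomial.X_pow_sub_one_separable_iff.2 hn0).squarefree
    · simp [hf]
  have htop := hss.iSup_eigenspace_eq_top
  have hind := f.eigenspaces_iSupIndep
  have hint : DirectSum.IsInternal (fun μ : ℂ => f.eigenspace μ) :=
    (DirectSum.isInternal_submodule_iff_iSupIndep_and_iSup_eq_top _).2 ⟨hind, htop⟩
  have hN : {μ : ℂ | f.eigenspace μ ≠ ⊥}.Finite :=
    WellFoundedGT.finite_ne_bot_of_iSupIndep hind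
  have hmf : ∀ μ : ℂ, Set.MapsTo f (f.eigenspace μ) (f.eigenspace μ) := by
    intro μ v hv
    rw [SetLike.mem_coe, Module.End.mem_eigenspace_iff] at hv ⊢
    rw [hv, map_smul, hv]
  have hfv : ∀ v, f (f' v) = v := fun v => by
    have := congrArg (fun e : Module.End ℂ V => e v) hff
    simpa using this
  have hfv' : ∀ v, f' (f v) = v := fun v => by
    have := congrArg (fun e : Module.End ℂ V => e v) hff'
    simpa using this
  have hmf' : ∀ μ : ℂ, Set.MapsTo f' (f.eigenspace μ) (f.eigenspace μ) := by
    intro μ v hv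
    rw [SetLike.mem_coe, Module.End.mem_eigenspace_iff] at hv ⊢
    rw [hfv, ← map_smul, ← hv, hfv']
  rw [LinearMap.trace_eq_sum_trace_restrict' hint hN hmf,
    LinearMap.trace_eq_sum_trace_restrict' hint hN hmf', map_sum]
  refine Finset.sum_congr rfl fun μ hμ => ?_
  rw [Set.Finite.mem_toFinset] at hμ
  -- μ is an eigenvalue
  obtain ⟨v, hv, hv0⟩ := Submodule.exists_mem_ne_zero_of_ne_bot hμ
  rw [Module.End.mem_eigenspace_iff] at hv
  have hpow : ∀ k : ℕ, (f ^ k) v = μ ^ k • v := by
    intro k
    induction k with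
    | zero => simp
    | succ k ih => rw [pow_succ', Module.End.mul_apply, ih, map_smul, hv, smul_smul, pow_succ]
  have hμn : μ ^ n = 1 := by
    have h1 := hpow n
    rw [hf] at h1
    have h2 : (μ ^ n - 1) • v = 0 := by
      rw [sub_smul, ← h1]; simp
    rcases smul_eq_zero.1 h2 with h3 | h3
    · exact sub_eq_zero.1 h3
    · exact absurd h3 hv0
  have hμ0 : μ ≠ 0 := by
    rintro rfl
    rw [zero_pow hn.ne'] at hμn
    exact zero_ne_one hμn
  have hnorm : ‖μ‖ = 1 := Complex.norm_eq_one_of_pow_eq_one hμn hn.ne'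
  have hconj : (starRingEnd ℂ) μ = μ⁻¹ := by
    rw [Complex.inv_def, Complex.normSq_eq_norm_sq, hnorm]
    simp
  have e1 : f.restrict (hmf μ) = μ • LinearMap.id := by
    ext ⟨w, hw⟩
    rw [Module.End.mem_eigenspace_iff] at hw
    simp [LinearMap.restrict_apply, hw]
  have e2 : f'.restrict (hmf' μ) = μ⁻¹ • LinearMap.id := by
    ext ⟨w, hw⟩
    rw [Module.End.mem_eigenspace_iff] at hw
    have h3 : f' w = μ⁻¹ • w := by
      have h4 := hfv' w
      rw [hw, map_smul] at h4
      rw [← h4, smul_smul, inv_mul_cancel₀ hμ0, one_smul, h4]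
    simp [LinearMap.restrict_apply, h3]
  rw [e1, e2, map_smul, map_smul, smul_eq_mul, smul_eq_mul, map_mul, hconj,
    LinearMap.trace_id]
  simp

end InvAux

/-- HINT: the eigenvalues of `ρ g` are roots of unity, those of `ρ g⁻¹` are the inverses with the
same multiplicities (e.g. `ρ g` is diagonalisable, or charpoly roots / triangularisation); the
inverse of a root of unity is the complex conjugate. Alternative: an invariant positive definite
hermitian form (average over `G`), in an orthonormal basis the matrix of `g⁻¹` is the adjoint. -/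
theorem Inv_char {G V : Type} [Group G] [Finite G] [AddCommGroup V] [Module ℂ V]
    [FiniteDimensional ℂ V] (ρ : Representation ℂ G V) (g : G) :
    ρ.character g⁻¹ = (starRingEnd ℂ) (ρ.character g) := by
  refine InvAux.tr (ρ g) (ρ g⁻¹) (Nat.card G) Nat.card_pos ?_ ?_ ?_
  · rw [← map_pow, pow_card_eq_one', map_one]
  · rw [← map_mul, mul_inv_cancel, map_one]
  · rw [← map_mul, inv_mul_cancel, map_one]

end Pool.Agent.KB
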