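import Pool.Agent.KB.Defs

/-! Integrality of the values of central characters. -/

namespace Pool.Agent.KB

/-- The degree of an irreducible character is a positive integer. -/
theorem Omega_deg {G V : Type} [Group G] [AddCommGroup V] [Module ℂ V]
    [FiniteDimensional ℂ V] (ρ : Representation ℂ G V) (hρ : ρ.IsIrreducible) :
    ρ.character 1 = (Module.finrank ℂ V : ℂ) ∧ 0 < Module.finrank ℂ V := by
  refine ⟨Representation.char_one ρ, ?_⟩
  have hs : IsSimpleModule (MonoidAlgebra ℂ G) ρ.asModule :=
    (Representation.irreducible_iff_isSimpleModule_asModule ρ).mp hρ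
  have hn : Nontrivial ρ.asModule := IsSimpleModule.nontrivial (MonoidAlgebra ℂ G) _
  have hV : Nontrivial V := ρ.asModuleEquiv.symm.toEquiv.nontrivial
  exact Module.finrank_pos

/-- HINT: let `z` be the sum of the conjugacy class of `g` in `MonoidAlgebra ℤ G`. It is integral
over `ℤ` (the ring is a finitely generated `ℤ`-module: `IsIntegral.of_finite` or
`Algebra.IsIntegral`), so its image in `Module.End ℂ V` under the ring homomorphism
`(ρ.asAlgebraHom).comp (map ℤ → ℂ)` is integral. The image is `∑ h ∈ class, ρ h`, which commutes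
with all `ρ x`, so by Schur's lemma
(`Representation.IsIrreducible.algebraMap_intertwiningMap_bijective_of_isAlgClosed`) it is a scalar
`c • 1`; taking traces `|K| χ(g) = c * χ(1)`, so `c = omega χ g`; and `algebraMap ℂ (End V)` is
injective as `V` is nontrivial (`isIntegral_algebraMap_iff` or `IsIntegral.map` backwards). -/
theorem Omega_int {G V : Type} [Group G] [Finite G] [AddCommGroup V] [Module ℂ V]
    [FiniteDimensional ℂ V] (ρ : Representation ℂ G V) (hρ : ρ.IsIrreducible) (g : G) :
    IsIntegral ℤ (omega ρ.character g) := by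
  classical
  have := Fintype.ofFinite G
  obtain ⟨hdeg, hpos⟩ := Omega_deg ρ hρ
  have := hρ
  have hV : Nontrivial V := Module.finrank_pos_iff.1 hpos
  set K : Finset G := Finset.univ.filter (fun h => IsConj g h) with hK
  have hmem : ∀ h, h ∈ K ↔ IsConj g h := fun h => by simp [hK]
  let z : MonoidAlgebra ℤ G := ∑ h ∈ K, MonoidAlgebra.of ℤ G h
  have hz : IsIntegral ℤ z := by
    have : Module.Finite ℤ (MonoidAlgebra ℤ G) := by infer_instance
    exact Algebra.IsIntegral.isIntegral z
  let φ : MonoidAlgebra ℤ G →ₐ[ℤ] Module.End ℂ V := MonoidAlgebra.lift ℤ (Module.End ℂ V) G ρ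
  have hφ : φ z = ∑ h ∈ K, ρ h := by
    simp only [z, map_sum]
    refine Finset.sum_congr rfl fun h _ => ?_
    simp [φ]
  have hint : IsIntegral ℤ (∑ h ∈ K, ρ h) := hφ ▸ hz.map φ
  have hcomm : ∀ x : G, (∑ h ∈ K, ρ h) ∘ₗ ρ x = ρ x ∘ₗ (∑ h ∈ K, ρ h) := by
    intro x
    have h1 : (∑ h ∈ K, ρ h) * ρ x = ρ x * ∑ h ∈ K, ρ h := by
      rw [Finset.sum_mul, Finset.mul_sum]
      refine Finset.sum_bij (fun h _ => x⁻¹ * h * x) ?_ ?_ ?_ ?_
      · intro h hh
        rw [hmem] at hh ⊢
        refine hh.trans ?_
        exact isConj_iff.2 ⟨x⁻¹, by simp⟩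
      · intro a _ b _ hab
        simpa using hab
      · intro b hb
        refine ⟨x * b * x⁻¹, ?_, by group⟩
        rw [hmem] at hb ⊢
        exact hb.trans (isConj_iff.2 ⟨x, rfl⟩)
      · intro h _
        rw [← map_mul, ← map_mul]
        congr 1
        group
    exact h1
  let S : Representation.IntertwiningMap ρ ρ :=
    { toLinearMap := ∑ h ∈ K, ρ h
      isIntertwining' := hcomm }
  obtain ⟨c, hc⟩ :=
    (Representation.IsIrreducible.algebraMap_intertwiningMap_bijective_of_isAlgClosed
      (ρ := ρ)).2 S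
  have hS : (∑ h ∈ K, ρ h) = algebraMap ℂ (Module.End ℂ V) c := by
    have := congrArg (fun s : Representation.IntertwiningMap ρ ρ => s.toLinearMap) hc
    have h2 : (∑ h ∈ K, ρ h) = (algebraMap ℂ (Representation.IntertwiningMap ρ ρ) c).toLinearMap :=
      this.symm
    rw [h2]
    ext v
    simp [Algebra.algebraMap_eq_smul_one]
  have htr : (K.card : ℂ) * ρ.character g = c * (Module.finrank ℂ V : ℂ) := by
    have h3 := congrArg (LinearMap.trace ℂ V) hS
    rw [map_sum] at h3
    have h4 : ∀ h ∈ K, LinearMap.trace ℂ V (ρ h) = ρ.character g := by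
      intro h hh
      rw [hmem] at hh
      obtain ⟨y, hy⟩ := isConj_iff.1 hh
      rw [← hy]
      exact Representation.char_conj ρ g y
    rw [Finset.sum_congr rfl h4, Finset.sum_const, nsmul_eq_mul] at h3
    rw [h3, Algebra.algebraMap_eq_smul_one, map_smul, LinearMap.trace_one]
    simp
  have hfin : (Module.finrank ℂ V : ℂ) ≠ 0 := by exact_mod_cast hpos.ne'
  have hcard : (Nat.card {h : G // IsConj g h} : ℂ) = (K.card : ℂ) := by
    rw [Nat.card_eq_fintype_card, Fintype.card_subtype]
  have hω : omega ρ.character g = c := by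
    unfold omega
    rw [hcard, hdeg, htr, mul_div_assoc, div_self hfin, mul_one]
  rw [hω]
  have hinj : Function.Injective (algebraMap ℂ (Module.End ℂ V)) :=
    (algebraMap ℂ (Module.End ℂ V)).injective
  rw [hS] at hint
  exact (isIntegral_algebraMap_iff (A := ℂ) (B := Module.End ℂ V) hinj).1 hint

end Pool.Agent.KB
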