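import Pool.Agent.KB.Syl

/-! The `q`-part of the sum of a character over the `p`-regular elements (`q ≠ p`): a version with
characters of the theorem of Frobenius on the number of solutions of `x^n = 1`. -/

namespace Pool.Agent.KB

open Classical in
/-- The sum of the character over the coset of `z` in the set of `q`-elements of the centraliser. -/
noncomputable def Sec_S {G V : Type} [Group G] [Fintype G] [AddCommGroup V] [Module ℂ V]
    [FiniteDimensional ℂ V] (ρ : Representation ℂ G V) (q : ℕ) (z : G) : ℂ :=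
  ∑ x : G with (Commute z x ∧ ∃ k : ℕ, orderOf x = q ^ k), ρ.character (z * x)

theorem Sec_S_conj {G V : Type} [Group G] [Fintype G] [AddCommGroup V] [Module ℂ V]
    [FiniteDimensional ℂ V] (ρ : Representation ℂ G V) (q : ℕ) (h z : G) :
    Sec_S ρ q (h * z * h⁻¹) = Sec_S ρ q z := by
  classical
  unfold Sec_S
  refine Finset.sum_nbij' (fun x => h⁻¹ * x * h) (fun x => h * x * h⁻¹) ?_ ?_ ?_ ?_ ?_
  · intro x hx
    simp only [Finset.mem_filter, Finset.mem_univ, true_and] at hx ⊢
    obtain ⟨hc, k, hk⟩ := hx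
    refine ⟨?_, k, ?_⟩
    · have h1 : h * z * h⁻¹ * x = x * (h * z * h⁻¹) := hc
      change z * (h⁻¹ * x * h) = h⁻¹ * x * h * z
      calc z * (h⁻¹ * x * h) = h⁻¹ * (h * z * h⁻¹ * x) * h := by group
        _ = h⁻¹ * (x * (h * z * h⁻¹)) * h := by rw [h1]
        _ = h⁻¹ * x * h * z := by group
    · rw [← hk]
      have := orderOf_injective (MulAut.conj h⁻¹).toMonoidHom (MulAut.conj h⁻¹).injective x
      rw [← this]
      congr 1
      simp
  · intro x hx
    simp only [Finset.mem_filter, Finset.mem_univ, true_and] at hx ⊢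
    obtain ⟨hc, k, hk⟩ := hx
    refine ⟨?_, k, ?_⟩
    · have h1 : z * x = x * z := hc
      change h * z * h⁻¹ * (h * x * h⁻¹) = h * x * h⁻¹ * (h * z * h⁻¹)
      calc h * z * h⁻¹ * (h * x * h⁻¹) = h * (z * x) * h⁻¹ := by group
        _ = h * (x * z) * h⁻¹ := by rw [h1]
        _ = h * x * h⁻¹ * (h * z * h⁻¹) := by group
    · rw [← hk]
      have := orderOf_injective (MulAut.conj h).toMonoidHom (MulAut.conj h).injective x
      rw [← this]
      congr 1
  · intro x _
    group
  · intro x _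
    group
  · intro x _
    have h1 : z * (h⁻¹ * x * h) = h⁻¹ * (h * z * h⁻¹ * x) * (h⁻¹)⁻¹ := by group
    rw [h1, Representation.char_conj]

theorem Sec_S_dvd {G V : Type} [Group G] [Fintype G] [AddCommGroup V] [Module ℂ V]
    [FiniteDimensional ℂ V] (ρ : Representation ℂ G V) (q : ℕ) (hq : q.Prime) (z : G) :
    ∃ a : ℂ, IsIntegral ℤ a ∧ Sec_S ρ q z =
      (q : ℂ) ^ padicValNat q (Nat.card (Subgroup.centralizer {z} : Subgroup G)) * a := by
  classical
  let H : Subgroup G := Subgroup.centralizer {z}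
  let _ : Fintype H := Fintype.ofFinite H
  obtain ⟨a, ha, h⟩ := Syl_sum (H := H) (ρ.comp H.subtype) (ρ z)
    (fun h => by
      have h1 : z * (h : G) = (h : G) * z := by
        have := Subgroup.mem_centralizer_iff.1 h.2 z (Set.mem_singleton z)
        exact this
      change ρ z * ρ (h : G) = ρ (h : G) * ρ z
      rw [← map_mul, ← map_mul, h1])
    (orderOf z) (orderOf_pos z) (by rw [← map_pow, pow_orderOf_eq_one, map_one]) q hq
  refine ⟨a, ha, ?_⟩
  rw [← h]
  unfold Sec_S
  refine Finset.sum_bij' (fun x hx => (⟨x, by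
      simp only [Finset.mem_filter, Finset.mem_univ, true_and] at hx
      rw [Subgroup.mem_centralizer_iff]
      intro y hy
      rw [Set.mem_singleton_iff.1 hy]
      exact hx.1⟩ : H)) (fun x _ => (x : G)) ?_ ?_ ?_ ?_ ?_
  · intro x hx
    simp only [Finset.mem_filter, Finset.mem_univ, true_and] at hx ⊢
    obtain ⟨k, hk⟩ := hx.2
    exact ⟨k, by rw [← hk, ← Subgroup.orderOf_coe]⟩
  · intro x hx
    simp only [Finset.mem_filter, Finset.mem_univ, true_and] at hx ⊢
    obtain ⟨k, hk⟩ := hx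
    refine ⟨?_, k, by rw [← hk, ← Subgroup.orderOf_coe]⟩
    exact Subgroup.mem_centralizer_iff.1 x.2 z (Set.mem_singleton z)
  · intro x _
    rfl
  · intro x _
    rfl
  · intro x _
    change LinearMap.trace ℂ V (ρ (z * x)) = LinearMap.trace ℂ V (ρ z * ρ x)
    rw [map_mul]

/-- Exponent which projects on the `q`-part. -/
theorem Sec_exp (n : ℕ) (hn : 0 < n) (q : ℕ) (hq : q.Prime) :
    ∃ e : ℕ, e ≡ 1 [MOD n / q ^ padicValNat q n] ∧ e ≡ 0 [MOD q ^ padicValNat q n] := by
  have hcop : Nat.Coprime (n / q ^ padicValNat q n) (q ^ padicValNat q n) := by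
    have : ¬ q ∣ n / q ^ padicValNat q n := by
      have := Nat.not_dvd_ordCompl hq hn.ne'
      rwa [← Nat.factorization_def n hq]
    exact Nat.Coprime.pow_right _ ((Nat.Prime.coprime_iff_not_dvd hq).2 this).symm
  obtain ⟨e, he⟩ := Nat.chineseRemainder hcop 1 0
  exact ⟨e, he⟩

open Classical in
/-- HINT: every `g` is uniquely `g = z x` with commuting `z` of order prime to `q` and `x` of
`q`-power order (`z = g ^ e`, `x = g ^ (1 - e)` with `e ≡ 1` modulo the `q'`-part and `e ≡ 0`
modulo the `q`-part of `|G|`), and `g` is `p`-regular iff `z` is. So the sum is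
`∑_z S(z)`, `z` over the elements with `¬ p ∣ orderOf z`, `¬ q ∣ orderOf z`, and
`S(z) = ∑_{x ∈ C(z), q-element} χ(z x)`, and `S(z) = q ^ v_q(|C(z)|) * a` by `Syl_sum` for
`H = Subgroup.centralizer {z}`. `S` is invariant under conjugation and the class of `z` has
`|G| / |C(z)|` elements: `Orb_sum` for the conjugation action of `G` on the set of these `z`
(for example `ConjAct G` on `G`, with `S` extended by `0`). -/
theorem Sec_main {G V : Type} [Group G] [Fintype G] [AddCommGroup V] [Module ℂ V]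
    [FiniteDimensional ℂ V] (ρ : Representation ℂ G V) (p q : ℕ) (hp : p.Prime) (hq : q.Prime)
    (hpq : p ≠ q) :
    ∃ a : ℂ, IsIntegral ℤ a ∧
      ∑ g : G with ¬ p ∣ orderOf g, ρ.character g =
        (q : ℂ) ^ padicValNat q (Nat.card G) * a := by
  have hn : 0 < Nat.card G := Nat.card_pos
  obtain ⟨e, he1, he0⟩ := Sec_exp (Nat.card G) hn q hq
  obtain ⟨n, hn'⟩ : ∃ n, n = Nat.card G := ⟨_, rfl⟩
  obtain ⟨v, hv⟩ : ∃ v, v = padicValNat q (Nat.card G) := ⟨_, rfl⟩
  obtain ⟨m, hm⟩ : ∃ m, m = Nat.card G / q ^ padicValNat q (Nat.card G) := ⟨_, rfl⟩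
  have hqm : ¬ q ∣ m := by
    have := Nat.not_dvd_ordCompl hq hn.ne'
    rw [Nat.factorization_def _ hq] at this
    rwa [hm]
  have hdvd : q ^ v ∣ Nat.card G := by rw [hv]; exact pow_padicValNat_dvd
  have hmul : q ^ v * m = Nat.card G := by rw [hm, ← hv]; exact Nat.mul_div_cancel' hdvd
  rw [← hm] at he1
  rw [← hv] at he0
  rw [← hv]
  have hcopm : Nat.Coprime (q ^ v) m :=
    Nat.Coprime.pow_left _ ((Nat.Prime.coprime_iff_not_dvd hq).2 hqm)
  -- facts about orders
  have hord : ∀ g : G, orderOf g ∣ q ^ v * m := fun g => by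
    rw [hmul]; exact orderOf_dvd_natCard g
  have hz_ord : ∀ g : G, (g ^ e) ^ m = 1 := by
    intro g
    rw [← pow_mul]
    apply orderOf_dvd_iff_pow_eq_one.1
    refine (hord g).trans ?_
    exact Nat.mul_dvd_mul ((Nat.modEq_zero_iff_dvd).1 he0) dvd_rfl
  have hx_ord : ∀ g : G, ((g ^ e)⁻¹ * g) ^ (q ^ v) = 1 := by
    intro g
    have hc : Commute (g ^ e)⁻¹ g := ((Commute.refl g).pow_left e).inv_left
    rw [hc.mul_pow, inv_pow, ← pow_mul, inv_mul_eq_one, pow_eq_pow_iff_modEq]
    have h1 : e * q ^ v ≡ 1 * q ^ v [MOD m * q ^ v] := he1.mul_right' _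
    rw [one_mul, mul_comm m] at h1
    exact h1.of_dvd (hord g)
  have hz_fix : ∀ z : G, ¬ q ∣ orderOf z → z ^ e = z := by
    intro z hz
    have h1 : orderOf z ∣ m := by
      have hc : Nat.Coprime (orderOf z) (q ^ v) :=
        (Nat.Coprime.pow_left _ ((Nat.Prime.coprime_iff_not_dvd hq).2 hz)).symm
      exact hc.dvd_of_dvd_mul_left (hord z)
    have h2 : z ^ e = z ^ 1 := pow_eq_pow_iff_modEq.2 (he1.of_dvd h1)
    rw [h2, pow_one]
  have hx_fix : ∀ x : G, (∃ k : ℕ, orderOf x = q ^ k) → x ^ e = 1 := by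
    rintro x ⟨k, hk⟩
    apply orderOf_dvd_iff_pow_eq_one.1
    have h1 : orderOf x ∣ q ^ v := by
      have hc : Nat.Coprime (orderOf x) m := by
        rw [hk]
        exact Nat.Coprime.pow_left _ ((Nat.Prime.coprime_iff_not_dvd hq).2 hqm)
      exact hc.dvd_of_dvd_mul_right (hord x)
    exact h1.trans ((Nat.modEq_zero_iff_dvd).1 he0)
  have hsum : ∑ g : G with ¬ p ∣ orderOf g, ρ.character g =
      ∑ z : G with (¬ p ∣ orderOf z ∧ ¬ q ∣ orderOf z), Sec_S ρ q z := by
    unfold Sec_S
    rw [Finset.sum_sigma']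
    refine Finset.sum_nbij' (fun g => ⟨g ^ e, (g ^ e)⁻¹ * g⟩) (fun s => s.1 * s.2) ?_ ?_ ?_ ?_ ?_
    · intro g hg
      simp only [Finset.mem_filter, Finset.mem_univ, true_and, Finset.mem_sigma] at hg ⊢
      refine ⟨⟨fun h => hg (h.trans (orderOf_pow_dvd e)), fun h => hqm ?_⟩, ?_, ?_⟩
      · exact h.trans (orderOf_dvd_of_pow_eq_one (hz_ord g))
      · have hc : Commute (g ^ e) g := (Commute.refl g).pow_left e
        exact ((Commute.refl (g ^ e)).inv_right).mul_right hc
      · obtain ⟨k, _, hk⟩ := (Nat.dvd_prime_pow hq).1 (orderOf_dvd_of_pow_eq_one (hx_ord g))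
        exact ⟨k, hk⟩
    · rintro ⟨z, x⟩ hs
      simp only [Finset.mem_filter, Finset.mem_univ, true_and, Finset.mem_sigma] at hs ⊢
      obtain ⟨⟨h1, h2⟩, h3, k, hk⟩ := hs
      have hc : Nat.Coprime (orderOf z) (orderOf x) := by
        rw [hk]
        exact (Nat.Coprime.pow_left _ ((Nat.Prime.coprime_iff_not_dvd hq).2 h2)).symm
      rw [h3.orderOf_mul_eq_mul_orderOf_of_coprime hc, hp.dvd_mul]
      rintro (h | h)
      · exact h1 h
      · rw [hk] at h
        exact hpq ((Nat.prime_dvd_prime_iff_eq hp hq).1 (hp.dvd_of_dvd_pow h))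
    · intro g _
      group
    · rintro ⟨z, x⟩ hs
      simp only [Finset.mem_filter, Finset.mem_univ, true_and, Finset.mem_sigma] at hs
      obtain ⟨⟨h1, h2⟩, h3, hk⟩ := hs
      have h4 : (z * x) ^ e = z := by
        rw [h3.mul_pow, hz_fix z h2, hx_fix x hk, mul_one]
      simp only [h4, inv_mul_cancel_left]
    · intro g _
      simp
  rw [hsum, Finset.sum_filter]
  let I : AddSubgroup ℂ :=
    { carrier := {y | ∃ a : ℂ, IsIntegral ℤ a ∧ y = (q : ℂ) ^ v * a}
      add_mem' := by
        rintro _ _ ⟨a, ha, rfl⟩ ⟨b, hb, rfl⟩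
        exact ⟨a + b, ha.add hb, by ring⟩
      zero_mem' := ⟨0, isIntegral_zero, by ring⟩
      neg_mem' := by
        rintro _ ⟨a, ha, rfl⟩
        exact ⟨-a, ha.neg, by ring⟩ }
  have key : ∑ z : G, (if (¬ p ∣ orderOf z ∧ ¬ q ∣ orderOf z) then Sec_S ρ q z else 0) ∈ I := by
    refine Orb_sum (H := ConjAct G) (X := G) _ ?_ I ?_
    · intro h x
      have h1 : h • x = ConjAct.ofConjAct h * x * (ConjAct.ofConjAct h)⁻¹ := ConjAct.smul_def h x
      have h2 : orderOf (h • x) = orderOf x := by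
        rw [h1]
        exact orderOf_injective (MulAut.conj (ConjAct.ofConjAct h)).toMonoidHom
          (MulAut.conj (ConjAct.ofConjAct h)).injective x
      rw [h2, h1, Sec_S_conj]
    · intro x
      by_cases hx : (¬ p ∣ orderOf x ∧ ¬ q ∣ orderOf x)
      · rw [if_pos hx]
        obtain ⟨a, ha, h⟩ := Sec_S_dvd ρ q hq x
        have h1 : Nat.card (MulAction.orbit (ConjAct G) x) *
            Nat.card (Subgroup.centralizer {x} : Subgroup G) = Nat.card G := by
          rw [Subgroup.nat_card_centralizer_nat_card_stabilizer]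
          have := MulAction.card_orbit_mul_card_stabilizer_eq_card_group (ConjAct G) x
          simpa [Nat.card_eq_fintype_card] using this
        have h2 : v = padicValNat q (Nat.card (MulAction.orbit (ConjAct G) x)) +
            padicValNat q (Nat.card (Subgroup.centralizer {x} : Subgroup G)) := by
          have : Fact q.Prime := ⟨hq⟩
          rw [hv, ← h1, padicValNat.mul]
          · intro h0
            rw [h0, zero_mul] at h1
            exact hn.ne h1
          · intro h0
            rw [h0, mul_zero] at h1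
            exact hn.ne h1
        obtain ⟨c, hc⟩ : q ^ padicValNat q (Nat.card (MulAction.orbit (ConjAct G) x)) ∣
            Nat.card (MulAction.orbit (ConjAct G) x) := pow_padicValNat_dvd
        refine ⟨c * a, (isIntegral_algebraMap (R := ℤ) (A := ℂ) (x := (c : ℤ))).mul ha |> fun h => by
          simpa using h, ?_⟩
        rw [h, h2, pow_add]
        nth_rewrite 1 [hc]
        push_cast
        ring
      · rw [if_neg hx, mul_zero]
        exact I.zero_mem
  exact key

/-- The sum of a character over the `p`-regular elements is an integer divisible by the `p'`-part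
of the group order. HINT: `Cyc_sum_int`, `Sec_main` for all `q ≠ p`; a rational algebraic integer
is an integer; then `Nat.Coprime` products over the prime factorisation. -/
theorem Sec_dvd {G V : Type} [Group G] [Fintype G] [AddCommGroup V] [Module ℂ V]
    [FiniteDimensional ℂ V] (ρ : Representation ℂ G V) (p : ℕ) (hp : p.Prime) (t : ℤ)
    (ht : ∑ g : G with ¬ p ∣ orderOf g, ρ.character g = (t : ℂ)) :
    ((Nat.card G / p ^ padicValNat p (Nat.card G) : ℕ) : ℤ) ∣ t := by
  have hn : 0 < Nat.card G := Nat.card_pos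
  have hq : ∀ q : ℕ, q.Prime → p ≠ q → ((q ^ padicValNat q (Nat.card G) : ℕ) : ℤ) ∣ t := by
    intro q hq hpq
    obtain ⟨a, ha, h⟩ := Sec_main ρ p q hp hq hpq
    rw [ht] at h
    have hq0 : (q : ℂ) ^ padicValNat q (Nat.card G) ≠ 0 :=
      pow_ne_zero _ (Nat.cast_ne_zero.2 hq.ne_zero)
    have h1 : a = (((t : ℚ) / (q ^ padicValNat q (Nat.card G) : ℕ) : ℚ) : ℂ) := by
      push_cast
      rw [h]
      field_simp
    have h2 : IsIntegral ℤ ((t : ℚ) / (q ^ padicValNat q (Nat.card G) : ℕ) : ℚ) := by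
      have h3 : IsIntegral ℤ (algebraMap ℚ ℂ ((t : ℚ) / (q ^ padicValNat q (Nat.card G) : ℕ))) := by
        rw [h1] at ha
        exact ha
      exact (isIntegral_algebraMap_iff (algebraMap ℚ ℂ).injective).1 h3
    obtain ⟨b, hb⟩ := IsIntegrallyClosed.isIntegral_iff.1 h2
    refine ⟨b, ?_⟩
    have hq1 : ((q ^ padicValNat q (Nat.card G) : ℕ) : ℚ) ≠ 0 :=
      Nat.cast_ne_zero.2 (pow_ne_zero _ hq.ne_zero)
    have h4 : (t : ℚ) = (q ^ padicValNat q (Nat.card G) : ℕ) * (b : ℚ) := by
      have h5 : (b : ℚ) = (t : ℚ) / (q ^ padicValNat q (Nat.card G) : ℕ) := by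
        simpa using hb
      rw [h5]
      field_simp
    exact_mod_cast h4
  rw [Int.natCast_dvd, Nat.dvd_iff_prime_pow_dvd_dvd]
  intro q k hqp hk
  by_cases hpq : p = q
  · subst hpq
    rcases Nat.eq_zero_or_pos k with h0 | h0
    · subst h0
      simp
    · exfalso
      have h1 := Nat.not_dvd_ordCompl hp hn.ne'
      rw [Nat.factorization_def _ hp] at h1
      exact h1 ((dvd_pow_self p h0.ne').trans hk)
  · have h1 : q ^ k ∣ Nat.card G :=
      hk.trans (Nat.div_dvd_of_dvd pow_padicValNat_dvd)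
    have : Fact q.Prime := ⟨hqp⟩
    have h2 : k ≤ padicValNat q (Nat.card G) := (padicValNat_dvd_iff_le hn.ne').1 h1
    have h3 := hq q hqp hpq
    rw [Int.natCast_dvd] at h3
    exact (pow_dvd_pow q h2).trans h3

end Pool.Agent.KB
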