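import Pool.Agent.KB.Cyc
import Pool.Agent.KB.Int
import Pool.Agent.KB.Inv
import Pool.Agent.KB.Omega
import Pool.Agent.KB.Sec

/-! The matrix of contributions `m_{χψ} = p^d / |G| * ∑_{g p-regular} χ(g) ψ(g⁻¹)` of a block. -/

namespace Pool.Agent.KB

namespace ContrAux

/-- Membership in the maximal ideal, as a predicate on complex numbers. -/
def InM (𝔪 : Ideal AInt) (z : ℂ) : Prop := ∃ c : AInt, c ∈ 𝔪 ∧ (c : ℂ) = z

theorem InM_zero (𝔪 : Ideal AInt) : InM 𝔪 0 := ⟨0, 𝔪.zero_mem, rfl⟩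

theorem InM_add {𝔪 : Ideal AInt} {z w : ℂ} (hz : InM 𝔪 z) (hw : InM 𝔪 w) : InM 𝔪 (z + w) := by
  obtain ⟨a, ha, rfl⟩ := hz
  obtain ⟨b, hb, rfl⟩ := hw
  exact ⟨a + b, 𝔪.add_mem ha hb, by push_cast; rfl⟩

theorem InM_sub {𝔪 : Ideal AInt} {z w : ℂ} (hz : InM 𝔪 z) (hw : InM 𝔪 w) : InM 𝔪 (z - w) := by
  obtain ⟨a, ha, rfl⟩ := hz
  obtain ⟨b, hb, rfl⟩ := hw
  exact ⟨a - b, 𝔪.sub_mem ha hb, by push_cast; rfl⟩

theorem InM_mul {𝔪 : Ideal AInt} {z w : ℂ} (hz : IsIntegral ℤ z) (hw : InM 𝔪 w) :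
    InM 𝔪 (z * w) := by
  obtain ⟨b, hb, rfl⟩ := hw
  exact ⟨⟨z, hz⟩ * b, 𝔪.mul_mem_left _ hb, by push_cast; rfl⟩

theorem InM_sum {𝔪 : Ideal AInt} {ι : Type*} (s : Finset ι) (f : ι → ℂ)
    (h : ∀ i ∈ s, InM 𝔪 (f i)) : InM 𝔪 (∑ i ∈ s, f i) := by
  classical
  induction s using Finset.induction_on with
  | empty => simpa using InM_zero 𝔪
  | insert a s ha ih =>
    rw [Finset.sum_insert ha]
    exact InM_add (h a (Finset.mem_insert_self _ _))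
      (ih fun i hi => h i (Finset.mem_insert_of_mem hi))

theorem InM_int {𝔪 : Ideal AInt} {p : ℕ} (hp : p.Prime) (h𝔪 : 𝔪.IsMaximal)
    (hp𝔪 : (p : AInt) ∈ 𝔪) {t : ℤ} (ht : InM 𝔪 (t : ℂ)) : (p : ℤ) ∣ t := by
  by_contra hcon
  obtain ⟨c, hc, hct⟩ := ht
  have hct' : c = (t : AInt) := by
    apply Subtype.ext
    rw [hct]
    push_cast
    rfl
  have hcop : IsCoprime (p : ℤ) t := by
    rcases (Nat.prime_iff_prime_int.mp hp).coprime_iff_not_dvd.mpr hcon with h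
    exact h
  obtain ⟨a, b, hab⟩ := hcop
  apply h𝔪.ne_top
  rw [Ideal.eq_top_iff_one]
  have h1 : (1 : AInt) = (a : AInt) * (p : AInt) + (b : AInt) * c := by
    rw [hct']
    have : ((a * p + b * t : ℤ) : AInt) = 1 := by rw [hab]; simp
    rw [← this]
    push_cast
    ring
  rw [h1]
  exact 𝔪.add_mem (𝔪.mul_mem_left _ hp𝔪) (𝔪.mul_mem_left _ hc)

theorem int_of_integral {q : ℚ} (h : IsIntegral ℤ (q : ℂ)) : ∃ z : ℤ, q = z := by
  have h1 : IsIntegral ℤ q := by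
    have h2 : IsIntegral ℤ (algebraMap ℚ ℂ q) := by simpa using h
    exact (isIntegral_algebraMap_iff (algebraMap ℚ ℂ).injective).mp h2
  obtain ⟨z, hz⟩ := IsIntegrallyClosed.isIntegral_iff.mp h1
  exact ⟨z, by rw [← hz]; simp⟩

theorem isIntegral_nat (n : ℕ) : IsIntegral ℤ (n : ℂ) := by
  have := isIntegral_algebraMap (R := ℤ) (A := ℂ) (x := (n : ℤ))
  simpa using this

theorem isIntegral_int (n : ℤ) : IsIntegral ℤ (n : ℂ) := by
  have := isIntegral_algebraMap (R := ℤ) (A := ℂ) (x := n)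
  simpa using this

section

variable {G : Type} [Group G] [Fintype G]

open Classical in
/-- The sum over the `p`-regular elements. -/
noncomputable def T (p : ℕ) (χ ψ : G → ℂ) : ℂ := ∑ g : G with ¬ p ∣ orderOf g, χ g * ψ g⁻¹

open Classical in
/-- The sum over the `p`-regular classes. -/
noncomputable def A (p : ℕ) (χ ψ : G → ℂ) : ℂ :=
  ∑ K : ConjClasses G, if p ∣ orderOf (Quotient.out K) then 0 else
    χ (Quotient.out K) * omega ψ (Quotient.out K)⁻¹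

theorem irr_integral {χ : G → ℂ} (hχ : χ ∈ Irr G) (g : G) : IsIntegral ℤ (χ g) := by
  obtain ⟨n, ρ, hρ, rfl⟩ := hχ
  exact Int_char ρ g

theorem irr_omega {χ : G → ℂ} (hχ : χ ∈ Irr G) (g : G) : IsIntegral ℤ (omega χ g) := by
  obtain ⟨n, ρ, hρ, rfl⟩ := hχ
  exact Omega_int ρ hρ g

theorem irr_deg {χ : G → ℂ} (hχ : χ ∈ Irr G) : ∃ n : ℕ, 0 < n ∧ χ 1 = n := by
  obtain ⟨n, ρ, hρ, rfl⟩ := hχ
  obtain ⟨h1, h2⟩ := Omega_deg ρ hρ
  exact ⟨_, h2, h1⟩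

theorem irr_conj {χ : G → ℂ} (hχ : χ ∈ Irr G) {g h : G} (hgh : IsConj g h) : χ g = χ h := by
  obtain ⟨n, ρ, hρ, rfl⟩ := hχ
  obtain ⟨c, rfl⟩ := isConj_iff.mp hgh
  rw [Representation.char_conj]

theorem irr_inv {χ : G → ℂ} (hχ : χ ∈ Irr G) (g : G) : χ g⁻¹ = (starRingEnd ℂ) (χ g) := by
  obtain ⟨n, ρ, hρ, rfl⟩ := hχ
  exact Inv_char ρ g

theorem isConj_inv {g h : G} (hgh : IsConj g h) : IsConj g⁻¹ h⁻¹ := by
  obtain ⟨c, rfl⟩ := isConj_iff.mp hgh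
  exact isConj_iff.mpr ⟨c, by group⟩

theorem orderOf_conj {g h : G} (hgh : IsConj g h) : orderOf g = orderOf h := by
  obtain ⟨c, rfl⟩ := isConj_iff.mp hgh
  exact (orderOf_injective (MulAut.conj c).toMonoidHom (MulAut.conj c).injective g).symm

theorem A_integral {p : ℕ} {χ ψ : G → ℂ} (hχ : χ ∈ Irr G) (hψ : ψ ∈ Irr G) :
    IsIntegral ℤ (A p χ ψ) := by
  unfold A
  refine IsIntegral.sum _ fun K _ => ?_
  split_ifs
  · exact isIntegral_zero
  · exact (irr_integral hχ _).mul (irr_omega hψ _)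

theorem A_sub {𝔪 : Ideal AInt} {p : ℕ} {χ ψ ψ' χ₀ : G → ℂ} (hχ : χ ∈ Irr G)
    (hψ : ψ ∈ block 𝔪 χ₀) (hψ' : ψ' ∈ block 𝔪 χ₀) : InM 𝔪 (A p χ ψ - A p χ ψ') := by
  unfold A
  rw [← Finset.sum_sub_distrib]
  refine InM_sum _ _ fun K _ => ?_
  split_ifs
  · simpa using InM_zero 𝔪
  · rw [← mul_sub]
    refine InM_mul (irr_integral hχ _) ?_
    have h1 : InM 𝔪 (omega χ₀ (Quotient.out K)⁻¹ - omega ψ (Quotient.out K)⁻¹) := hψ.2 _
    have h2 : InM 𝔪 (omega χ₀ (Quotient.out K)⁻¹ - omega ψ' (Quotient.out K)⁻¹) := hψ'.2 _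
    have := InM_sub h2 h1
    have e : omega ψ (Quotient.out K)⁻¹ - omega ψ' (Quotient.out K)⁻¹ =
      omega χ₀ (Quotient.out K)⁻¹ - omega ψ' (Quotient.out K)⁻¹ -
        (omega χ₀ (Quotient.out K)⁻¹ - omega ψ (Quotient.out K)⁻¹) := by ring
    rw [e]
    exact this

theorem T_eq {p : ℕ} {χ ψ : G → ℂ} (hχ : χ ∈ Irr G) (hψ : ψ ∈ Irr G) :
    T p χ ψ = ψ 1 * A p χ ψ := by
  classical
  obtain ⟨n, hn, hn1⟩ := irr_deg hψ
  have hψ1 : ψ 1 ≠ 0 := by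
    rw [hn1]
    exact_mod_cast hn.ne'
  unfold T A
  rw [Finset.mul_sum, ← Finset.sum_fiberwise (Finset.univ.filter fun g : G => ¬ p ∣ orderOf g)
    (fun g => (ConjClasses.mk g : ConjClasses G))]
  refine Finset.sum_congr rfl fun K _ => ?_
  set k := Quotient.out K with hk
  have hmk : ConjClasses.mk k = K := Quotient.out_eq K
  have hiff : ∀ g : G, ConjClasses.mk g = K ↔ IsConj k g := fun g => by
    rw [← hmk, ConjClasses.mk_eq_mk_iff_isConj]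
    exact ⟨fun h => h.symm, fun h => h.symm⟩
  split_ifs with hpk
  · rw [mul_zero]
    refine Finset.sum_eq_zero fun g hg => ?_
    rw [Finset.mem_filter, Finset.mem_filter] at hg
    exact absurd (orderOf_conj ((hiff g).mp hg.2) ▸ hpk) hg.1.2
  · have hterm : ∀ g ∈ (Finset.univ.filter fun g : G => ¬ p ∣ orderOf g).filter
        (fun g => (ConjClasses.mk g : ConjClasses G) = K), χ g * ψ g⁻¹ = χ k * ψ k⁻¹ := by
      intro g hg
      rw [Finset.mem_filter] at hg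
      have hc := (hiff g).mp hg.2
      rw [irr_conj hχ hc, irr_conj hψ (isConj_inv hc)]
    rw [Finset.sum_congr rfl hterm, Finset.sum_const, nsmul_eq_mul]
    have hcard : ((Finset.univ.filter fun g : G => ¬ p ∣ orderOf g).filter
        (fun g => (ConjClasses.mk g : ConjClasses G) = K)).card =
        Nat.card {h : G // IsConj k⁻¹ h} := by
      rw [Nat.card_eq_fintype_card, Fintype.card_subtype]
      refine Finset.card_bij (fun g _ => g⁻¹) ?_ ?_ ?_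
      · intro g hg
        rw [Finset.mem_filter] at hg
        rw [Finset.mem_filter]
        exact ⟨Finset.mem_univ _, isConj_inv ((hiff g).mp hg.2)⟩
      · intro g _ h _ hgh
        exact inv_injective hgh
      · intro g hg
        rw [Finset.mem_filter] at hg
        refine ⟨g⁻¹, ?_, inv_inv g⟩
        have hc : IsConj k g⁻¹ := by
          have := isConj_inv hg.2
          rwa [inv_inv] at this
        rw [Finset.mem_filter, Finset.mem_filter]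
        exact ⟨⟨Finset.mem_univ _, (orderOf_conj hc) ▸ hpk⟩, (hiff _).mpr hc⟩
    rw [hcard]
    unfold omega
    field_simp

theorem T_int {p : ℕ} (hp : p.Prime) {χ ψ : G → ℂ} (hχ : χ ∈ Irr G) (hψ : ψ ∈ Irr G) :
    ∃ u : ℤ, T p χ ψ = (((Nat.card G / p ^ padicValNat p (Nat.card G) : ℕ) : ℤ) * u : ℤ) := by
  classical
  obtain ⟨n, ρ, hρ, rfl⟩ := hχ
  obtain ⟨n', σ, hσ, rfl⟩ := hψ
  set τ := Representation.tprod ρ σ.dual with hτ
  have hchar : ∀ g : G, τ.character g = ρ.character g * σ.character g⁻¹ := fun g => by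
    rw [hτ, Representation.char_tensor, Pi.mul_apply, Representation.char_dual]
  have hT : T p ρ.character σ.character = ∑ g : G with ¬ p ∣ orderOf g, τ.character g := by
    unfold T
    refine Finset.sum_congr ?_ fun g _ => (hchar g).symm
    congr
  obtain ⟨t, ht⟩ := Cyc_sum_int τ (Finset.univ.filter fun g : G => ¬ p ∣ orderOf g) (by
    intro g h hgh hg
    rw [Finset.mem_filter] at hg ⊢
    refine ⟨Finset.mem_univ _, ?_⟩
    have : orderOf g = orderOf h := by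
      rw [← Nat.card_zpowers, ← Nat.card_zpowers, hgh]
    rw [← this]
    exact hg.2)
  have hdvd := Sec_dvd τ p hp t (by convert ht)
  obtain ⟨u, hu⟩ := hdvd
  refine ⟨u, ?_⟩
  rw [hT, ← hu]
  convert ht

end

end ContrAux

open ContrAux

open Classical in
/-- HINT: write `|G| = p^a n`, `p ∤ n`, `T χ ψ = ∑_{g p-regular} χ g * ψ g⁻¹`.
(1) `T χ ψ` is an integer `t`, and `n ∣ t`: `Cyc_sum_int`, `Sec_dvd` for
`Representation.tprod ρ σ.dual` (`Representation.char_tensor`, `Representation.char_dual`).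
(2) `T χ ψ = ψ(1) * A χ ψ`, `A χ ψ = ∑_{K p-regular class} χ(g_K) * omega ψ (g_K⁻¹)`
(sum over `ConjClasses G`, representatives `Quotient.out`), `A χ ψ` is integral
(`Int_char`, `Omega_int`), and `A χ ψ - A χ ψ' ∈ 𝔪` for `ψ, ψ'` in the block.
(3) By definition of the defect (the infimum is attained: the set is nonempty, it contains `a`)
`p^d ψ(1) = p^a c_ψ` with a natural number `c_ψ > 0`. So `n * m = c_ψ * A χ ψ` is integral and by
(1) `p^a m` is an integer, hence `m ∈ ℤ` (`n`, `p^a` coprime; a rational number which is an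
algebraic integer is an integer).
(4) `n * m χ ψ ≡ c_ψ * A χ χ₀` modulo `𝔪`, and an integer in `𝔪` is divisible by `p`; so `p`
divides `n^2 * minor`.
(5) If `p ∤ m χ χ` then `A χ χ₀ ∉ 𝔪`; `m χ ψ = 0` would give `A χ ψ = 0`, contradiction.
(6) `T χ χ = ∑ |χ g|^2 ≥ χ(1)^2 > 0` by `Inv_char`. -/
theorem Contr_main {G : Type} [Group G] [Fintype G] (p : ℕ) (hp : p.Prime) (𝔪 : Ideal AInt)
    (h𝔪 : 𝔪.IsMaximal) (hp𝔪 : (p : AInt) ∈ 𝔪) (χ₀ : G → ℂ) (hχ₀ : χ₀ ∈ Irr G) :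
    ∃ m : (G → ℂ) → (G → ℂ) → ℤ,
      (∀ χ ∈ block 𝔪 χ₀, ∀ ψ ∈ block 𝔪 χ₀,
        (m χ ψ : ℂ) = (p : ℂ) ^ defect p (block 𝔪 χ₀) / (Nat.card G : ℂ) *
          ∑ g : G with ¬ p ∣ orderOf g, χ g * ψ g⁻¹) ∧
      (∀ χ ∈ block 𝔪 χ₀, ∀ χ' ∈ block 𝔪 χ₀, ∀ ψ ∈ block 𝔪 χ₀, ∀ ψ' ∈ block 𝔪 χ₀,
        (p : ℤ) ∣ m χ ψ * m χ' ψ' - m χ ψ' * m χ' ψ) ∧
      (∀ χ ∈ block 𝔪 χ₀, ¬ (p : ℤ) ∣ m χ χ → ∀ ψ ∈ block 𝔪 χ₀, m χ ψ ≠ 0) ∧
      (∀ χ ∈ block 𝔪 χ₀, 0 < m χ χ) := by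
  set B := block 𝔪 χ₀ with hB
  set a := padicValNat p (Nat.card G) with ha
  set d := defect p B with hd
  set n' : ℕ := Nat.card G / p ^ a with hn'
  have hG0 : Nat.card G ≠ 0 := Nat.card_pos.ne'
  have hpa : p ^ a ∣ Nat.card G := pow_padicValNat_dvd
  have hGn : p ^ a * n' = Nat.card G := Nat.mul_div_cancel' hpa
  have hn'p : ¬ p ∣ n' := by
    intro hcon
    obtain ⟨c, hc⟩ := hcon
    have : p ^ (a + 1) ∣ Nat.card G := ⟨c, by rw [← hGn, hc, pow_succ]; ring⟩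
    have hle := (padicValNat_dvd_iff_le (hp := ⟨hp⟩) hG0).mp this
    rw [← ha] at hle
    omega
  have hn'0 : n' ≠ 0 := by
    intro h0
    rw [h0] at hn'p
    exact hn'p (dvd_zero p)
  have hBIrr : ∀ χ ∈ B, χ ∈ Irr G := fun χ h => h.1
  -- the defect is attained
  have hdef : ∀ χ ∈ B, ∃ n : ℕ, χ 1 = n ∧ p ^ a ∣ p ^ d * n := by
    have hmem : a ∈ {d : ℕ | ∀ χ ∈ B, ∃ n : ℕ, χ 1 = n ∧
        p ^ padicValNat p (Nat.card G) ∣ p ^ d * n} := by
      intro χ hχ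
      obtain ⟨n, _, hn⟩ := irr_deg (hBIrr χ hχ)
      exact ⟨n, hn, Dvd.intro n rfl⟩
    exact Nat.sInf_mem ⟨a, hmem⟩
  have hc : ∀ ψ ∈ B, ∃ c : ℕ, 0 < c ∧ (p : ℂ) ^ d * ψ 1 = (p : ℂ) ^ a * c := by
    intro ψ hψ
    obtain ⟨n, hn, c, hc⟩ := hdef ψ hψ
    obtain ⟨n2, hn2, hn3⟩ := irr_deg (hBIrr ψ hψ)
    have hnn : n = n2 := by
      rw [hn] at hn3
      exact_mod_cast hn3
    refine ⟨c, ?_, ?_⟩
    · rcases Nat.eq_zero_or_pos c with h0 | h0
      · rw [h0, mul_zero] at hc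
        have := Nat.mul_pos (Nat.pow_pos hp.pos (n := d)) (hnn ▸ hn2)
        omega
      · exact h0
    · rw [hn]
      exact_mod_cast hc
  have hpC : (p : ℂ) ≠ 0 := by exact_mod_cast hp.pos.ne'
  have hn'C : (n' : ℂ) ≠ 0 := by exact_mod_cast hn'0
  have hGC : (Nat.card G : ℂ) = (p : ℂ) ^ a * n' := by rw [← hGn]; push_cast; ring
  set val : (G → ℂ) → (G → ℂ) → ℂ := fun χ ψ => (p : ℂ) ^ d / (Nat.card G : ℂ) * T p χ ψ with hval
  have hvalA : ∀ χ ∈ B, ∀ ψ ∈ B, ∀ c : ℕ, (p : ℂ) ^ d * ψ 1 = (p : ℂ) ^ a * c →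
      (n' : ℂ) * val χ ψ = c * A p χ ψ := by
    intro χ hχ ψ hψ c hcψ
    rw [hval]
    simp only
    rw [T_eq (hBIrr χ hχ) (hBIrr ψ hψ), hGC]
    have hpa0 : (p : ℂ) ^ a ≠ 0 := pow_ne_zero _ hpC
    field_simp
    linear_combination (A p χ ψ) * hcψ
  have hint : ∀ χ ∈ B, ∀ ψ ∈ B, ∃ z : ℤ, (z : ℂ) = val χ ψ := by
    intro χ hχ ψ hψ
    obtain ⟨c, _, hcψ⟩ := hc ψ hψ
    have h1 := hvalA χ hχ ψ hψ c hcψ
    obtain ⟨u, hu⟩ := T_int hp (hBIrr χ hχ) (hBIrr ψ hψ)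
    have h2 : val χ ψ = (((p : ℚ) ^ d * u / (p : ℚ) ^ a : ℚ) : ℂ) := by
      rw [hval]
      simp only
      rw [hu, hGC]
      rw [← ha, ← hn']
      push_cast
      field_simp
    have h3 : (p : ℂ) ^ a * val χ ψ = (((p : ℤ) ^ d * u : ℤ) : ℂ) := by
      rw [h2]
      push_cast
      field_simp
    have hcop : IsCoprime (n' : ℤ) ((p : ℤ) ^ a) := by
      have : Nat.Coprime n' (p ^ a) :=
        Nat.Coprime.pow_right a ((Nat.Prime.coprime_iff_not_dvd hp).mpr hn'p).symm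
      exact_mod_cast Nat.isCoprime_iff_coprime.mpr this
    obtain ⟨x, y, hxy⟩ := hcop
    have hIntv : IsIntegral ℤ (val χ ψ) := by
      have e : val χ ψ = (x : ℂ) * ((c : ℂ) * A p χ ψ) + (y : ℂ) * (((p : ℤ) ^ d * u : ℤ) : ℂ) := by
        rw [← h1, ← h3]
        have hxy' : (x : ℂ) * n' + (y : ℂ) * (p : ℂ) ^ a = 1 := by exact_mod_cast hxy
        linear_combination (-(val χ ψ)) * hxy'
      rw [e]
      exact ((isIntegral_int x).mul ((isIntegral_nat c).mul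
        (A_integral (hBIrr χ hχ) (hBIrr ψ hψ)))).add ((isIntegral_int y).mul (isIntegral_int _))
    rw [h2] at hIntv
    obtain ⟨z, hz⟩ := int_of_integral hIntv
    exact ⟨z, by rw [h2, hz]; simp⟩
  -- the matrix
  set m : (G → ℂ) → (G → ℂ) → ℤ := fun χ ψ =>
    if h : ∃ z : ℤ, (z : ℂ) = val χ ψ then h.choose else 0 with hm
  have hmval : ∀ χ ∈ B, ∀ ψ ∈ B, (m χ ψ : ℂ) = val χ ψ := by
    intro χ hχ ψ hψ
    have h := hint χ hχ ψ hψ
    rw [hm]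
    simp only
    rw [dif_pos h]
    exact h.choose_spec
  refine ⟨m, ?_, ?_, ?_, ?_⟩
  · intro χ hχ ψ hψ
    rw [hmval χ hχ ψ hψ]
    rfl
  · intro χ hχ χ' hχ' ψ hψ ψ' hψ'
    obtain ⟨c, _, hcψ⟩ := hc ψ hψ
    obtain ⟨c', _, hcψ'⟩ := hc ψ' hψ'
    have e1 := hvalA χ hχ ψ hψ c hcψ
    have e2 := hvalA χ' hχ' ψ' hψ' c' hcψ'
    have e3 := hvalA χ hχ ψ' hψ' c' hcψ'
    have e4 := hvalA χ' hχ' ψ hψ c hcψ
    have hInM : InM 𝔪 (((n' ^ 2 * (m χ ψ * m χ' ψ' - m χ ψ' * m χ' ψ) : ℤ)) : ℂ) := by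
      have e : (((n' ^ 2 * (m χ ψ * m χ' ψ' - m χ ψ' * m χ' ψ) : ℤ)) : ℂ) =
          ((c : ℂ) * c' * A p χ' ψ') * (A p χ ψ - A p χ ψ') +
            ((c : ℂ) * c' * A p χ ψ') * (A p χ' ψ' - A p χ' ψ) := by
        push_cast
        rw [hmval χ hχ ψ hψ, hmval χ' hχ' ψ' hψ', hmval χ hχ ψ' hψ', hmval χ' hχ' ψ hψ]
        calc (n' : ℂ) ^ 2 * (val χ ψ * val χ' ψ' - val χ ψ' * val χ' ψ) =
            ((n' : ℂ) * val χ ψ) * ((n' : ℂ) * val χ' ψ') -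
              ((n' : ℂ) * val χ ψ') * ((n' : ℂ) * val χ' ψ) := by ring
          _ = _ := by rw [e1, e2, e3, e4]; ring
      rw [e]
      refine InM_add (InM_mul ?_ (A_sub (hBIrr χ hχ) hψ hψ')) (InM_mul ?_ ?_)
      · exact ((isIntegral_nat c).mul (isIntegral_nat c')).mul
          (A_integral (hBIrr χ' hχ') (hBIrr ψ' hψ'))
      · exact ((isIntegral_nat c).mul (isIntegral_nat c')).mul
          (A_integral (hBIrr χ hχ) (hBIrr ψ' hψ'))
      · exact A_sub (hBIrr χ' hχ') hψ' hψ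
    have hdvd := InM_int hp h𝔪 hp𝔪 hInM
    have hpP := Nat.prime_iff_prime_int.mp hp
    rcases hpP.dvd_or_dvd hdvd with h | h
    · exfalso
      have := hpP.dvd_of_dvd_pow h
      exact hn'p (by exact_mod_cast this)
    · exact h
  · intro χ hχ hnd ψ hψ h0
    obtain ⟨c, hc0, hcψ⟩ := hc ψ hψ
    obtain ⟨c', _, hcχ⟩ := hc χ hχ
    have e1 := hvalA χ hχ ψ hψ c hcψ
    have e2 := hvalA χ hχ χ hχ c' hcχ
    have hA0 : A p χ ψ = 0 := by
      rw [← hmval χ hχ ψ hψ, h0] at e1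
      have hcC : (c : ℂ) ≠ 0 := by exact_mod_cast hc0.ne'
      have : (c : ℂ) * A p χ ψ = 0 := by rw [← e1]; simp
      exact (mul_eq_zero.mp this).resolve_left hcC
    have hInM : InM 𝔪 ((n' * m χ χ : ℤ) : ℂ) := by
      have e : ((n' * m χ χ : ℤ) : ℂ) = (c' : ℂ) * (A p χ χ - A p χ ψ) := by
        push_cast
        rw [hmval χ hχ χ hχ, e2, hA0, sub_zero]
      rw [e]
      exact InM_mul (isIntegral_nat c') (A_sub (hBIrr χ hχ) hχ hψ)
    have hdvd := InM_int hp h𝔪 hp𝔪 hInM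
    rcases (Nat.prime_iff_prime_int.mp hp).dvd_or_dvd hdvd with h | h
    · exact hn'p (by exact_mod_cast h)
    · exact hnd h
  · intro χ hχ
    have h1 : T p χ χ = ((∑ g : G with ¬ p ∣ orderOf g, Complex.normSq (χ g) : ℝ) : ℂ) := by
      unfold T
      push_cast
      refine Finset.sum_congr rfl fun g _ => ?_
      rw [irr_inv (hBIrr χ hχ), Complex.mul_conj]
    have h2 : 0 < ∑ g : G with ¬ p ∣ orderOf g, Complex.normSq (χ g) := by
      refine Finset.sum_pos' (fun g _ => Complex.normSq_nonneg _) ⟨1, ?_, ?_⟩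
      · rw [Finset.mem_filter]
        refine ⟨Finset.mem_univ _, ?_⟩
        rw [orderOf_one, Nat.dvd_one]
        exact hp.one_lt.ne'
      · obtain ⟨n, hn, hn1⟩ := irr_deg (hBIrr χ hχ)
        rw [hn1, Complex.normSq_pos]
        exact_mod_cast hn.ne'
    have h3 : ((m χ χ : ℝ) : ℂ) = (((p : ℝ) ^ d / (Nat.card G : ℝ) *
        ∑ g : G with ¬ p ∣ orderOf g, Complex.normSq (χ g) : ℝ) : ℂ) := by
      have := hmval χ hχ χ hχ
      push_cast at this ⊢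
      rw [this, hval]
      simp only
      rw [h1]
      push_cast
      rfl
    have h4 : (m χ χ : ℝ) = (p : ℝ) ^ d / (Nat.card G : ℝ) *
        ∑ g : G with ¬ p ∣ orderOf g, Complex.normSq (χ g) := by exact_mod_cast h3
    have h5 : (0 : ℝ) < (m χ χ : ℝ) := by
      rw [h4]
      have hpR : (0 : ℝ) < p := by exact_mod_cast hp.pos
      have hGR : (0 : ℝ) < (Nat.card G : ℝ) := by exact_mod_cast Nat.card_pos
      positivity
    exact_mod_cast h5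

end Pool.Agent.KB
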