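import Pool.Agent.KB.Contr

/-! The characters of a block, cut down to the `p`-regular elements, as vectors of a real inner
product space. -/

namespace Pool.Agent.KB

namespace EmbAux

variable {G : Type} [Group G] [Fintype G]

/-- The real vector attached to a complex function. -/
noncomputable def rvec (c : ℝ) (f : G → ℂ) : EuclideanSpace ℝ (G ⊕ G) :=
  WithLp.toLp 2 (Sum.elim (fun g => c * (f g).re) (fun g => c * (f g).im))

omit [Group G] in
theorem inner_rvec (c : ℝ) (f : G → ℂ) (x : EuclideanSpace ℝ (G ⊕ G)) :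
    inner ℝ (rvec c f) x =
      c * (∑ g, (starRingEnd ℂ) (f g) * ((x (Sum.inl g) : ℂ) + x (Sum.inr g) * Complex.I)).re := by
  rw [PiLp.inner_apply, Fintype.sum_sum_type, Complex.re_sum, Finset.mul_sum,
    ← Finset.sum_add_distrib]
  refine Finset.sum_congr rfl fun g _ => ?_
  simp [rvec]
  ring

theorem norm_le (p : ℕ) (x : EuclideanSpace ℝ (G ⊕ G)) :
    ‖(WithLp.toLp 2 (preg p fun g => ((x (Sum.inl g) : ℂ) + x (Sum.inr g) * Complex.I)) :
      EuclideanSpace ℂ G)‖ ^ 2 ≤ ‖x‖ ^ 2 := by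
  rw [EuclideanSpace.norm_sq_eq, EuclideanSpace.norm_sq_eq, Fintype.sum_sum_type,
    ← Finset.sum_add_distrib]
  refine Finset.sum_le_sum fun g _ => ?_
  have h : ‖((x (Sum.inl g) : ℂ) + x (Sum.inr g) * Complex.I)‖ ^ 2 =
      ‖x (Sum.inl g)‖ ^ 2 + ‖x (Sum.inr g)‖ ^ 2 := by
    rw [Complex.sq_norm, Complex.normSq_add_mul_I, Real.norm_eq_abs, Real.norm_eq_abs, sq_abs,
      sq_abs]
  simp only [preg]
  split_ifs
  · rw [norm_zero, zero_pow two_ne_zero]
    exact add_nonneg (sq_nonneg _) (sq_nonneg _)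
  · exact h.le

theorem orthonormal_irr {k : ℕ} (χ : Fin k → G → ℂ) (hinj : Function.Injective χ)
    (hχ : ∀ i, χ i ∈ Irr G) :
    Orthonormal ℂ (fun i => (WithLp.toLp 2 (fun g => (χ i g) / (Real.sqrt (Nat.card G) : ℂ)) :
      EuclideanSpace ℂ G)) := by
  classical
  have hN : (0 : ℝ) < (Nat.card G : ℝ) := by exact_mod_cast Nat.card_pos
  have hs : ((Real.sqrt (Nat.card G) : ℝ) : ℂ) * ((Real.sqrt (Nat.card G) : ℝ) : ℂ) =
      (Nat.card G : ℂ) := by
    rw [← Complex.ofReal_mul, Real.mul_self_sqrt hN.le]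
    simp
  have hNC : (Nat.card G : ℂ) ≠ 0 := by exact_mod_cast hN.ne'
  rw [orthonormal_iff_ite]
  intro i j
  rw [PiLp.inner_apply]
  have h1 : ∀ g : G, inner ℂ ((χ i g) / (Real.sqrt (Nat.card G) : ℂ))
      ((χ j g) / (Real.sqrt (Nat.card G) : ℂ)) =
      (Nat.card G : ℂ)⁻¹ * (χ j g * χ i g⁻¹) := by
    intro g
    rw [ContrAux.irr_inv (hχ i), RCLike.inner_apply, map_div₀, Complex.conj_ofReal, ← hs]
    have hs0 : ((Real.sqrt (Nat.card G) : ℝ) : ℂ) ≠ 0 := by
      intro h0
      rw [h0, mul_zero] at hs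
      exact hNC hs.symm
    field_simp
  simp only [h1]
  rw [← Finset.mul_sum]
  obtain ⟨n, ρ, hρ, hρ'⟩ := hχ i
  obtain ⟨n', σ, hσ, hσ'⟩ := hχ j
  have := hρ
  have := hσ
  haveI : Invertible (Nat.card G : ℂ) := invertibleOfNonzero hNC
  rw [← hρ', ← hσ', Representation.char_orthonormal σ ρ]
  refine if_congr ?_ rfl rfl
  constructor
  · rintro ⟨φ⟩
    have := Representation.char_iso φ
    rw [hρ', hσ'] at this
    exact hinj this
  · rintro rfl
    by_contra hcon
    have h2 := Representation.char_orthonormal σ ρ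
    rw [if_neg hcon] at h2
    have h3 := Representation.char_orthonormal σ σ
    rw [if_pos ⟨Representation.Equiv.refl _⟩] at h3
    rw [hρ', ← hσ'] at h2
    rw [h3] at h2
    exact one_ne_zero h2

end EmbAux

open EmbAux

/-- HINT: `v i = sqrt (p^d / |G|) *` (real and imaginary parts of `preg p (χ i)`), with `d` the
defect. Inner products: `⟪v i, v j⟫ = Re (p^d / |G| * ∑ χ i g * conj (χ j g)) = m`, by
`Contr_main` and `Inv_char`. Bessel: the vectors `(χ i) / sqrt |G|` are orthonormal in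
`EuclideanSpace ℂ G` (`Representation.char_orthonormal`; isomorphic representations have the same
character, `χ` is injective), and `⟪v i, x⟫` is the real part of `sqrt (p^d)` times the hermitian
inner product of `(χ i) / sqrt |G|` with the restriction of `x` to the `p`-regular elements.
Dimension: the inner products are real, so real linearly independent subfamilies of the `v i` are
complex linearly independent as functions (if `∑ (a_i + i b_i) v_i = 0` take inner products with
all `v j`: `∑ a_i v_i` and `∑ b_i v_i` are orthogonal to themselves). -/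
theorem Emb_main {G : Type} [Group G] [Fintype G] (p : ℕ) (hp : p.Prime) (𝔪 : Ideal AInt)
    (h𝔪 : 𝔪.IsMaximal) (hp𝔪 : (p : AInt) ∈ 𝔪) (χ₀ : G → ℂ) (hχ₀ : χ₀ ∈ Irr G)
    {k : ℕ} (χ : Fin k → G → ℂ) (hinj : Function.Injective χ)
    (hχ : ∀ i, χ i ∈ block 𝔪 χ₀) :
    ∃ (v : Fin k → EuclideanSpace ℝ (G ⊕ G)) (m : Fin k → Fin k → ℤ),
      (∀ i j, inner ℝ (v i) (v j) = (m i j : ℝ)) ∧
      (∀ i i' j j', (p : ℤ) ∣ m i j * m i' j' - m i j' * m i' j) ∧
      (∀ i, ¬ (p : ℤ) ∣ m i i → ∀ j, m i j ≠ 0) ∧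
      (∀ i, 0 < m i i) ∧
      (∀ x : EuclideanSpace ℝ (G ⊕ G),
        ∑ i, (inner ℝ (v i) x) ^ 2 ≤ (p : ℝ) ^ defect p (block 𝔪 χ₀) * ‖x‖ ^ 2) ∧
      Module.finrank ℝ (Submodule.span ℝ (Set.range v)) ≤ ell p (block 𝔪 χ₀) := by
  classical
  obtain ⟨m, hm1, hm2, hm3, hm4⟩ := Contr_main p hp 𝔪 h𝔪 hp𝔪 χ₀ hχ₀
  set d := defect p (block 𝔪 χ₀) with hd
  have hN : (0 : ℝ) < (Nat.card G : ℝ) := by exact_mod_cast Nat.card_pos
  have hpR : (0 : ℝ) < (p : ℝ) := by exact_mod_cast hp.pos
  set c : ℝ := Real.sqrt ((p : ℝ) ^ d / (Nat.card G : ℝ)) with hc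
  have hc2 : c * c = (p : ℝ) ^ d / (Nat.card G : ℝ) := Real.mul_self_sqrt (by positivity)
  have hcpos : 0 < c := Real.sqrt_pos.mpr (by positivity)
  set v : Fin k → EuclideanSpace ℝ (G ⊕ G) := fun i => rvec c (preg p (χ i)) with hv
  -- hermitian products of the restrictions
  have hherm : ∀ i j, ∑ g, (starRingEnd ℂ) (preg p (χ i) g) * preg p (χ j) g =
      ∑ g : G with ¬ p ∣ orderOf g, χ j g * χ i g⁻¹ := by
    intro i j
    rw [Finset.sum_filter]
    refine Finset.sum_congr rfl fun g _ => ?_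
    by_cases hg : p ∣ orderOf g
    · simp [preg, hg]
    · rw [if_pos hg]
      simp only [preg, if_neg hg]
      rw [ContrAux.irr_inv (hχ i).1]
      ring
  have hherm' : ∀ i j, ((p : ℂ) ^ d / (Nat.card G : ℂ)) *
      ∑ g, (starRingEnd ℂ) (preg p (χ i) g) * preg p (χ j) g = (m (χ j) (χ i) : ℂ) := by
    intro i j
    rw [hherm, hm1 _ (hχ j) _ (hχ i)]
  have hin0 : ∀ i j, inner ℝ (v i) (v j) = (m (χ j) (χ i) : ℝ) := by
    intro i j
    rw [hv]
    simp only
    rw [inner_rvec]
    have e1 : ∀ g : G, (((rvec c (preg p (χ j)) : EuclideanSpace ℝ (G ⊕ G)) (Sum.inl g) : ℝ) : ℂ) +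
        (((rvec c (preg p (χ j)) : EuclideanSpace ℝ (G ⊕ G)) (Sum.inr g) : ℝ) : ℂ) * Complex.I =
        (c : ℂ) * preg p (χ j) g := by
      intro g
      simp only [rvec, Sum.elim_inl, Sum.elim_inr]
      push_cast
      conv_rhs => rw [← Complex.re_add_im (preg p (χ j) g)]
      ring
    simp only [e1]
    have e2 : ∑ g, (starRingEnd ℂ) (preg p (χ i) g) * ((c : ℂ) * preg p (χ j) g) =
        (c : ℂ) * ∑ g, (starRingEnd ℂ) (preg p (χ i) g) * preg p (χ j) g := by
      rw [Finset.mul_sum]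
      exact Finset.sum_congr rfl fun g _ => by ring
    rw [e2, Complex.re_ofReal_mul, ← mul_assoc, hc2]
    have e3 := hherm' i j
    have e4 : (((p : ℝ) ^ d / (Nat.card G : ℝ) : ℝ) : ℂ) = (p : ℂ) ^ d / (Nat.card G : ℂ) := by
      push_cast; rfl
    rw [← e4] at e3
    have e5 := congrArg Complex.re e3
    rw [Complex.re_ofReal_mul] at e5
    rw [e5]
    simp
  have hsymm : ∀ i j, m (χ i) (χ j) = m (χ j) (χ i) := by
    intro i j
    have h1 := hin0 i j
    have h2 := hin0 j i
    rw [real_inner_comm, h2] at h1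
    exact_mod_cast h1
  have hin : ∀ i j, inner ℝ (v i) (v j) = (m (χ i) (χ j) : ℝ) := by
    intro i j
    rw [hin0, hsymm]
  refine ⟨v, fun i j => m (χ i) (χ j), hin, ?_, ?_, ?_, ?_, ?_⟩
  · intro i i' j j'
    exact hm2 _ (hχ i) _ (hχ i') _ (hχ j) _ (hχ j')
  · intro i hi j
    exact hm3 _ (hχ i) hi _ (hχ j)
  · intro i
    exact hm4 _ (hχ i)
  · -- Bessel
    intro x
    set z : EuclideanSpace ℂ G := WithLp.toLp 2
      (preg p fun g => ((x (Sum.inl g) : ℂ) + x (Sum.inr g) * Complex.I)) with hz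
    have hort := orthonormal_irr χ hinj (fun i => (hχ i).1)
    have hbes := hort.sum_inner_products_le (s := Finset.univ) z
    have hz2 : ‖z‖ ^ 2 ≤ ‖x‖ ^ 2 := norm_le p x
    set S : ℝ := Real.sqrt (Nat.card G) with hS
    have hSpos : 0 < S := Real.sqrt_pos.mpr hN
    have hS2 : S * S = (Nat.card G : ℝ) := Real.mul_self_sqrt hN.le
    have hkey : ∀ i, inner ℝ (v i) x = c * S *
        (inner ℂ (WithLp.toLp 2 (fun g => (χ i g) / (S : ℂ)) : EuclideanSpace ℂ G) z).re := by
      intro i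
      rw [hv]
      simp only
      rw [inner_rvec, mul_assoc]
      congr 1
      rw [← Complex.re_ofReal_mul]
      congr 1
      rw [PiLp.inner_apply, Finset.mul_sum]
      refine Finset.sum_congr rfl fun g _ => ?_
      rw [hz]
      simp only [RCLike.inner_apply, map_div₀, Complex.conj_ofReal]
      have hSC : (S : ℂ) ≠ 0 := by exact_mod_cast hSpos.ne'
      by_cases hg : p ∣ orderOf g
      · simp [preg, hg]
      · simp only [preg, if_neg hg]
        field_simp
    have hcS : (c * S) ^ 2 = (p : ℝ) ^ d := by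
      rw [mul_pow, sq, sq, hc2, hS2]
      field_simp
    calc ∑ i, (inner ℝ (v i) x) ^ 2 = ∑ i, (p : ℝ) ^ d *
          ((inner ℂ (WithLp.toLp 2 (fun g => (χ i g) / (S : ℂ)) : EuclideanSpace ℂ G) z).re) ^ 2 := by
          refine Finset.sum_congr rfl fun i _ => ?_
          rw [hkey, mul_pow, hcS]
      _ ≤ ∑ i, (p : ℝ) ^ d *
          ‖(inner ℂ (WithLp.toLp 2 (fun g => (χ i g) / (S : ℂ)) : EuclideanSpace ℂ G) z)‖ ^ 2 := by
          refine Finset.sum_le_sum fun i _ => ?_
          refine mul_le_mul_of_nonneg_left ?_ (by positivity)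
          rw [← sq_abs (Complex.re _)]
          exact pow_le_pow_left₀ (abs_nonneg _) (Complex.abs_re_le_norm _) 2
      _ = (p : ℝ) ^ d * ∑ i,
          ‖(inner ℂ (WithLp.toLp 2 (fun g => (χ i g) / (S : ℂ)) : EuclideanSpace ℂ G) z)‖ ^ 2 := by
          rw [Finset.mul_sum]
      _ ≤ (p : ℝ) ^ d * ‖x‖ ^ 2 := by
          refine mul_le_mul_of_nonneg_left ?_ (by positivity)
          exact hbes.trans hz2
  · -- dimension
    obtain ⟨κ, a, ha, hspan, hli⟩ := exists_linearIndependent' ℝ v
    have : Finite κ := Finite.of_injective a ha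
    have : Fintype κ := Fintype.ofFinite κ
    have hliC : LinearIndependent ℂ (fun i : κ => preg p (χ (a i))) := by
      rw [Fintype.linearIndependent_iff]
      intro t ht
      have h1 : ∀ j : κ, ∑ i, t i * (m (χ (a i)) (χ (a j)) : ℂ) = 0 := by
        intro j
        have h2 : ∑ g, (starRingEnd ℂ) (preg p (χ (a j)) g) *
            (∑ i, t i • preg p (χ (a i))) g = 0 := by
          rw [ht]; simp
        have h3 : ∑ g, (starRingEnd ℂ) (preg p (χ (a j)) g) *
            (∑ i, t i • preg p (χ (a i))) g = ∑ i, t i *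
              ∑ g, (starRingEnd ℂ) (preg p (χ (a j)) g) * preg p (χ (a i)) g := by
          simp only [Finset.sum_apply, Pi.smul_apply, smul_eq_mul, Finset.mul_sum]
          rw [Finset.sum_comm]
          refine Finset.sum_congr rfl fun i _ => Finset.sum_congr rfl fun g _ => by ring
        rw [h3] at h2
        have h4 : ((p : ℂ) ^ d / (Nat.card G : ℂ)) * ∑ i, t i *
              ∑ g, (starRingEnd ℂ) (preg p (χ (a j)) g) * preg p (χ (a i)) g = 0 := by
          rw [h2, mul_zero]
        rw [Finset.mul_sum] at h4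
        rw [← h4]
        refine Finset.sum_congr rfl fun i _ => ?_
        rw [← hherm' (a j) (a i)]
        ring
      have hre : ∀ j : κ, ∑ i, (t i).re * (m (χ (a i)) (χ (a j)) : ℝ) = 0 := by
        intro j
        have := congrArg Complex.re (h1 j)
        rw [Complex.re_sum] at this
        simpa using this
      have him : ∀ j : κ, ∑ i, (t i).im * (m (χ (a i)) (χ (a j)) : ℝ) = 0 := by
        intro j
        have := congrArg Complex.im (h1 j)
        rw [Complex.im_sum] at this
        simpa using this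
      have hgen : ∀ s : κ → ℝ, (∀ j : κ, ∑ i, s i * (m (χ (a i)) (χ (a j)) : ℝ) = 0) →
          ∀ i, s i = 0 := by
        intro s hs
        have h5 : ∀ j : κ, inner ℝ (∑ i, s i • v (a i)) (v (a j)) = 0 := by
          intro j
          rw [sum_inner, ← hs j]
          refine Finset.sum_congr rfl fun i _ => ?_
          rw [real_inner_smul_left, hin]
        have h6 : inner ℝ (∑ i, s i • v (a i)) (∑ i, s i • v (a i)) = 0 := by
          conv_lhs => rw [inner_sum]
          refine Finset.sum_eq_zero fun j _ => ?_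
          rw [real_inner_smul_right, h5 j, mul_zero]
        have h7 : ∑ i, s i • v (a i) = 0 := inner_self_eq_zero.mp h6
        exact Fintype.linearIndependent_iff.mp hli s h7
      intro i
      apply Complex.ext
      · exact hgen (fun i => (t i).re) hre i
      · exact hgen (fun i => (t i).im) him i
    rw [← hspan, finrank_span_eq_card hli, ← finrank_span_eq_card hliC]
    unfold ell
    apply Submodule.finrank_mono
    apply Submodule.span_mono
    rintro _ ⟨i, rfl⟩
    exact ⟨χ (a i), hχ (a i), rfl⟩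

end Pool.Agent.KB
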