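import Mathlib

/-! Sums of a character over a set of elements which is closed under changing the generator of
a cyclic subgroup are integers. -/

namespace Pool.Agent.KB

namespace CycAux

variable {G V : Type} [Group G] [Fintype G] [AddCommGroup V] [Module ℂ V]
    [FiniteDimensional ℂ V] (ρ : Representation ℂ G V)

open Classical in
theorem sub_int (C : Subgroup G) :
    ∑ g ∈ Finset.univ.filter (fun g : G => g ∈ C), ρ.character g ∈ (Int.castRingHom ℂ).range := by
  have h0 : ((Nat.card C : ℕ) : ℂ) ≠ 0 := by
    exact_mod_cast (Nat.card_pos (α := C)).ne'
  have : Invertible ((Nat.card C : ℕ) : ℂ) := invertibleOfNonzero h0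
  have h1 := Representation.card_inv_mul_sum_char_eq_finrank (ρ.comp C.subtype)
  have h2 : ∑ g : C, (Representation.character (ρ.comp C.subtype)) g =
      ∑ g ∈ Finset.univ.filter (fun g : G => g ∈ C), ρ.character g := by
    have : ∀ g : C, (Representation.character (ρ.comp C.subtype)) g = ρ.character (g : G) :=
      fun g => rfl
    simp_rw [this]
    rw [← Finset.sum_subtype (Finset.univ.filter (fun g : G => g ∈ C)) (fun x => by simp)
      (fun g => ρ.character g)]
  rw [← h2]
  have h3 : ∑ g : C, (Representation.character (ρ.comp C.subtype)) g =
      (Nat.card C : ℂ) * (Module.finrank ℂ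
        (Representation.invariants (ρ.comp C.subtype)) : ℂ) := by
    rw [← h1, mul_inv_cancel_left₀ h0]
  rw [h3]
  exact ⟨(Nat.card C : ℤ) * (Module.finrank ℂ
        (Representation.invariants (ρ.comp C.subtype)) : ℤ), by simp⟩

open Classical in
theorem gen_int (n : ℕ) : ∀ C : Subgroup G, Nat.card C ≤ n →
    ∑ g ∈ Finset.univ.filter (fun g : G => Subgroup.zpowers g = C), ρ.character g ∈
      (Int.castRingHom ℂ).range := by
  induction n with
  | zero =>
    intro C hC
    exact absurd (Nat.card_pos (α := C)) (by omega)
  | succ n ih =>
    intro C hC
    have h1 := sub_int ρ C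
    have : Fintype (Subgroup G) := Fintype.ofFinite _
    rw [← Finset.sum_fiberwise (Finset.univ.filter (fun g : G => g ∈ C))
      (fun g => Subgroup.zpowers g) (fun g => ρ.character g),
      ← Finset.add_sum_erase _ _ (Finset.mem_univ C)] at h1
    have h2 : ∑ D ∈ Finset.univ.erase C, ∑ g ∈ Finset.univ.filter (fun g : G => g ∈ C) with
        Subgroup.zpowers g = D, ρ.character g ∈ (Int.castRingHom ℂ).range := by
      refine Subring.sum_mem _ fun D hD => ?_
      have hDC : D ≠ C := (Finset.mem_erase.1 hD).1
      by_cases hle : D ≤ C
      · have h3 : (Finset.univ.filter (fun g : G => g ∈ C)).filter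
            (fun g => Subgroup.zpowers g = D) =
            Finset.univ.filter (fun g : G => Subgroup.zpowers g = D) := by
          ext g
          simp only [Finset.mem_filter, Finset.mem_univ, true_and]
          constructor
          · exact fun h => h.2
          · intro h
            refine ⟨hle ?_, h⟩
            rw [← h]
            exact Subgroup.mem_zpowers g
        rw [h3]
        apply ih
        have h4 : Nat.card D < Nat.card C := by
          rw [← SetLike.coe_sort_coe, ← SetLike.coe_sort_coe, Nat.card_coe_set_eq,
            Nat.card_coe_set_eq]
          exact Set.ncard_lt_ncard (lt_of_le_of_ne hle (fun h => hDC (SetLike.coe_injective h))) (Set.toFinite _)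
        omega
      · have h3 : (Finset.univ.filter (fun g : G => g ∈ C)).filter
            (fun g => Subgroup.zpowers g = D) = ∅ := by
          ext g
          simp only [Finset.mem_filter, Finset.mem_univ, true_and, Finset.notMem_empty, iff_false]
          rintro ⟨h5, h6⟩
          apply hle
          rw [← h6]
          exact (Subgroup.zpowers_le).2 h5
        rw [h3, Finset.sum_empty]
        exact Subring.zero_mem _
    have h5 := Subring.sub_mem _ h1 h2
    rw [add_sub_cancel_right] at h5
    have h6 : (Finset.univ.filter (fun g : G => g ∈ C)).filter
            (fun g => Subgroup.zpowers g = C) =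
            Finset.univ.filter (fun g : G => Subgroup.zpowers g = C) := by
      ext g
      simp only [Finset.mem_filter, Finset.mem_univ, true_and]
      constructor
      · exact fun h => h.2
      · intro h
        refine ⟨?_, h⟩
        rw [← h]
        exact Subgroup.mem_zpowers g
    rwa [h6] at h5

end CycAux

/-- HINT: for a cyclic subgroup `C` the sum of the character over all elements of `C` is
`|C| * dim V^C` (`Representation.card_inv_mul_sum_char_eq_finrank` for the restriction to `C`).
By strong induction on `|C|` the sum over the generators of `C` is an integer (the elements of `C`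
are partitioned by the subgroup which they generate). Then partition `S` by the cyclic subgroup
`Subgroup.zpowers g`: the fibre over `C` is the set of all generators of `C`. -/
theorem Cyc_sum_int {G V : Type} [Group G] [Fintype G] [AddCommGroup V] [Module ℂ V]
    [FiniteDimensional ℂ V] (ρ : Representation ℂ G V) (S : Finset G)
    (hS : ∀ g h : G, Subgroup.zpowers g = Subgroup.zpowers h → g ∈ S → h ∈ S) :
    ∃ t : ℤ, ∑ g ∈ S, ρ.character g = (t : ℂ) := by
  classical
  have : Fintype (Subgroup G) := Fintype.ofFinite _
  have h : ∑ g ∈ S, ρ.character g ∈ (Int.castRingHom ℂ).range := by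
    rw [← Finset.sum_fiberwise S (fun g => Subgroup.zpowers g) (fun g => ρ.character g)]
    refine Subring.sum_mem _ fun D _ => ?_
    by_cases hD : ∃ g ∈ S, Subgroup.zpowers g = D
    · obtain ⟨g, hg, hgD⟩ := hD
      have h3 : S.filter (fun g => Subgroup.zpowers g = D) =
          Finset.univ.filter (fun g : G => Subgroup.zpowers g = D) := by
        ext x
        simp only [Finset.mem_filter, Finset.mem_univ, true_and]
        exact ⟨fun h => h.2, fun h => ⟨hS g x (hgD.trans h.symm) hg, h⟩⟩
      rw [h3]
      exact CycAux.gen_int ρ _ D le_rfl
    · have h3 : S.filter (fun g => Subgroup.zpowers g = D) = ∅ := by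
        ext x
        simp only [Finset.mem_filter, Finset.notMem_empty, iff_false]
        exact fun h => hD ⟨x, h.1, h.2⟩
      rw [h3, Finset.sum_empty]
      exact Subring.zero_mem _
  obtain ⟨t, ht⟩ := h
  exact ⟨t, by rw [← ht]; simp⟩

end Pool.Agent.KB
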