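import Mathlib

/-! Definitions for the theorem about `k(B)` and `l(B)`: complex irreducible characters of a finite
group, their central characters, `p`-blocks (Brauer's definition through congruences of central
characters), the defect and the number `l(B)`. -/

namespace Pool.Agent.KB

/-- The ring of algebraic integers in `ℂ`. -/
abbrev AInt : Subalgebra ℤ ℂ := integralClosure ℤ ℂ

/-- The set of irreducible complex characters of `G`. -/
def Irr (G : Type) [Group G] : Set (G → ℂ) :=
  {χ | ∃ (n : ℕ) (ρ : Representation ℂ G (Fin n → ℂ)), ρ.IsIrreducible ∧ ρ.character = χ}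

/-- The value of the central character of `χ` at the sum of the conjugacy class of `g`:
`|K| χ(g) / χ(1)`. -/
noncomputable def omega {G : Type} [Group G] (χ : G → ℂ) (g : G) : ℂ :=
  (Nat.card {h : G // IsConj g h} : ℂ) * χ g / χ 1

/-- Two characters are in the same block if the values of their central characters at all class
sums are congruent modulo the maximal ideal `𝔪` of the ring of algebraic integers. -/
def SameBlock {G : Type} [Group G] (𝔪 : Ideal AInt) (χ ψ : G → ℂ) : Prop :=
  ∀ g : G, ∃ c : AInt, c ∈ 𝔪 ∧ (c : ℂ) = omega χ g - omega ψ g

/-- The set `Irr(B)` for the block `B` of the irreducible character `χ`. -/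
def block {G : Type} [Group G] (𝔪 : Ideal AInt) (χ : G → ℂ) : Set (G → ℂ) :=
  {ψ | ψ ∈ Irr G ∧ SameBlock 𝔪 χ ψ}

/-- The defect of a block: the least `d` such that the `p`-part of `|G|` divides `p^d χ(1)` for all
characters `χ` in the block; i.e. `p^(a-d)` is the smallest `p`-part of a degree. -/
noncomputable def defect {G : Type} [Group G] (p : ℕ) (B : Set (G → ℂ)) : ℕ :=
  sInf {d : ℕ | ∀ χ ∈ B, ∃ n : ℕ, χ 1 = n ∧ p ^ padicValNat p (Nat.card G) ∣ p ^ d * n}

open Classical in
/-- The class function which agrees with `χ` on the `p`-regular elements and vanishes on the other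
elements. -/
noncomputable def preg {G : Type} [Group G] (p : ℕ) (χ : G → ℂ) : G → ℂ :=
  fun g => if p ∣ orderOf g then 0 else χ g

/-- The number `l(B)`: the dimension of the space spanned by the restrictions of the characters of
the block to the `p`-regular elements (this is the number of irreducible Brauer characters of the
block). -/
noncomputable def ell {G : Type} [Group G] (p : ℕ) (B : Set (G → ℂ)) : ℕ :=
  Module.finrank ℂ (Submodule.span ℂ (preg p '' B))

end Pool.Agent.KB
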