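import Mathlib

/-! Sums of invariant functions over a finite `H`-set. -/

namespace Pool.Agent.KB

/-- HINT: the sum is the sum over the orbits of `|orbit| * f x`
(`MulAction.selfEquivSigmaOrbits` or `Finset.sum_fiberwise`/`Finset.sum_comp` with the quotient
map to `MulAction.orbitRel.Quotient H X`). -/
theorem Orb_sum {H X : Type} [Group H] [Fintype X] [MulAction H X] (f : X → ℂ)
    (hf : ∀ (h : H) (x : X), f (h • x) = f x) (I : AddSubgroup ℂ)
    (hI : ∀ x : X, (Nat.card (MulAction.orbit H x) : ℂ) * f x ∈ I) : ∑ x : X, f x ∈ I := by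
  classical
  let π : X → MulAction.orbitRel.Quotient H X := fun x => Quotient.mk _ x
  haveI : Fintype (MulAction.orbitRel.Quotient H X) := Fintype.ofFinite _
  rw [← Finset.sum_fiberwise Finset.univ π f]
  refine I.sum_mem fun q _ => ?_
  obtain ⟨x₀, rfl⟩ : ∃ x₀, π x₀ = q := Quotient.exists_rep q
  have hmem : ∀ x, π x = π x₀ ↔ x ∈ MulAction.orbit H x₀ := by
    intro x
    show (Quotient.mk _ x : MulAction.orbitRel.Quotient H X) = Quotient.mk _ x₀ ↔ _
    rw [Quotient.eq, MulAction.orbitRel_apply]
  have h1 : ∀ x ∈ Finset.univ.filter (fun x => π x = π x₀), f x = f x₀ := by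
    intro x hx
    rw [Finset.mem_filter] at hx
    obtain ⟨h, rfl⟩ := (hmem x).1 hx.2
    exact hf h x₀
  rw [Finset.sum_congr rfl h1, Finset.sum_const, nsmul_eq_mul]
  have h2 : (Finset.univ.filter (fun x => π x = π x₀)).card = Nat.card (MulAction.orbit H x₀) := by
    rw [Nat.card_eq_fintype_card, ← Set.toFinset_card]
    congr 1
    ext x
    simp only [Finset.mem_filter, Finset.mem_univ, true_and, Set.mem_toFinset]
    exact hmem x
  rw [h2]
  exact hI x₀

end Pool.Agent.KB
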