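import Pool.Agent.KB.Int
import Pool.Agent.KB.Orb

/-! The average of `trace (z ρ(h)) * |Fix_X(h)|` over the group is an algebraic integer. -/

namespace Pool.Agent.KB

/-- HINT: the average `P` of `ρ` over `H` is idempotent and commutes with `z`, so `f = z * P`
satisfies `f ^ (n + 1) = f`; use `Int_trace`. (`∑ h, trace (z * ρ h) = |H| * trace (z * P)`.) -/
theorem Fix_one {H V : Type} [Group H] [Fintype H] [AddCommGroup V] [Module ℂ V]
    [FiniteDimensional ℂ V] (ρ : Representation ℂ H V) (z : Module.End ℂ V)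
    (hz : ∀ h : H, Commute z (ρ h)) (n : ℕ) (hn : 0 < n) (hzn : z ^ n = 1) :
    ∃ a : ℂ, IsIntegral ℤ a ∧
      ∑ h : H, LinearMap.trace ℂ V (z * ρ h) = (Nat.card H : ℂ) * a := by
  classical
  have h0 : (Nat.card H : ℂ) ≠ 0 := by exact_mod_cast (Nat.card_pos (α := H)).ne'
  set c : ℂ := (Nat.card H : ℂ)⁻¹ with hc
  set P : Module.End ℂ V := c • ∑ h : H, ρ h with hP
  have hPP : P * P = P := by
    have h1 : ∀ g : H, ρ g * ∑ h : H, ρ h = ∑ h : H, ρ h := by
      intro g
      rw [Finset.mul_sum]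
      simp_rw [← map_mul]
      exact Fintype.sum_equiv (Equiv.mulLeft g) _ _ (fun h => rfl)
    have h2 : (∑ g : H, ρ g) * ∑ h : H, ρ h = (Nat.card H : ℂ) • ∑ h : H, ρ h := by
      rw [Finset.sum_mul, Finset.sum_congr rfl (fun g _ => h1 g), Finset.sum_const,
        Finset.card_univ, ← Nat.card_eq_fintype_card, Nat.cast_smul_eq_nsmul]
    rw [hP, smul_mul_smul_comm, h2, smul_smul, mul_assoc, hc, inv_mul_cancel₀ h0, mul_one]
  have hzP : Commute z P := by
    rw [hP]
    apply Commute.smul_right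
    exact Commute.sum_right _ _ _ (fun h _ => hz h)
  have hpow : ∀ k : ℕ, P ^ (k + 1) = P := by
    intro k
    induction k with
    | zero => simp
    | succ k ih => rw [pow_succ, ih, hPP]
  have hf : (z * P) ^ (n + 1) = z * P := by
    rw [hzP.mul_pow, hpow, pow_succ, hzn, one_mul]
  refine ⟨LinearMap.trace ℂ V (z * P), Int_trace _ n hn hf, ?_⟩
  rw [hP, mul_smul_comm, map_smul, smul_eq_mul, ← mul_assoc, hc, mul_inv_cancel₀ h0, one_mul,
    Finset.mul_sum, map_sum]

/-- HINT: interchange the sums: `∑ x, ∑ h ∈ Stab x, trace (z * ρ h) = ∑ x, |Stab x| * a x`, with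
`a x` integral by `Fix_one` for the restriction to the stabiliser; the function
`x ↦ ∑ h ∈ Stab x, trace (z * ρ h)` is invariant (the trace is conjugation invariant and `z`
commutes with `ρ`), and `|orbit x| * |Stab x| = |H|`; use `Orb_sum` with the subgroup `I` of all
`|H| * a`, `a` integral. -/
theorem Fix_sum {H X V : Type} [Group H] [Fintype H] [Fintype X] [MulAction H X]
    [AddCommGroup V] [Module ℂ V]
    [FiniteDimensional ℂ V] (ρ : Representation ℂ H V) (z : Module.End ℂ V)
    (hz : ∀ h : H, Commute z (ρ h)) (n : ℕ) (hn : 0 < n) (hzn : z ^ n = 1) :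
    ∃ a : ℂ, IsIntegral ℤ a ∧
      ∑ h : H, LinearMap.trace ℂ V (z * ρ h) * (Nat.card {x : X // h • x = x} : ℂ) =
        (Nat.card H : ℂ) * a := by
  classical
  set F : X → ℂ := fun x => ∑ h : H, if h • x = x then LinearMap.trace ℂ V (z * ρ h) else 0
    with hF
  -- interchange the sums
  have hsum : ∑ h : H, LinearMap.trace ℂ V (z * ρ h) * (Nat.card {x : X // h • x = x} : ℂ) =
      ∑ x : X, F x := by
    rw [hF, Finset.sum_comm]
    refine Finset.sum_congr rfl fun h _ => ?_
    rw [← Finset.sum_filter, Finset.sum_const, nsmul_eq_mul, mul_comm,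
      Nat.card_eq_fintype_card, Fintype.card_subtype]
  -- invariance
  have hinv : ∀ (g : H) (x : X), F (g • x) = F x := by
    intro g x
    rw [hF]
    dsimp only
    refine Fintype.sum_equiv (MulAut.conj g⁻¹).toEquiv _ _ (fun h => ?_)
    have e1 : (MulAut.conj g⁻¹).toEquiv h = g⁻¹ * h * g := by simp
    rw [e1]
    have e2 : (g⁻¹ * h * g) • x = x ↔ h • g • x = g • x := by
      rw [mul_smul, mul_smul, inv_smul_eq_iff]
    have e3 : LinearMap.trace ℂ V (z * ρ (g⁻¹ * h * g)) = LinearMap.trace ℂ V (z * ρ h) := by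
      have e4 : z * ρ (g⁻¹ * h * g) = ρ g⁻¹ * (z * ρ h * ρ g) := by
        rw [map_mul, map_mul, ← mul_assoc, ← mul_assoc, (hz g⁻¹).eq]
        simp only [mul_assoc]
      rw [e4, LinearMap.trace_mul_comm, mul_assoc, mul_assoc, ← map_mul, mul_inv_cancel, map_one,
        mul_one]
    rw [e3]
    by_cases hx : h • g • x = g • x
    · rw [if_pos hx, if_pos (e2.2 hx)]
    · rw [if_neg hx, if_neg (fun h' => hx (e2.1 h'))]
  -- the subgroup
  let I : AddSubgroup ℂ :=
    { carrier := {c | ∃ a : ℂ, IsIntegral ℤ a ∧ c = (Nat.card H : ℂ) * a}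
      zero_mem' := ⟨0, isIntegral_zero, by simp⟩
      add_mem' := by
        rintro c d ⟨a, ha, rfl⟩ ⟨b, hb, rfl⟩
        exact ⟨a + b, ha.add hb, by ring⟩
      neg_mem' := by
        rintro c ⟨a, ha, rfl⟩
        exact ⟨-a, ha.neg, by ring⟩ }
  have hmem : ∑ x : X, F x ∈ I := by
    refine Orb_sum (H := H) F hinv I fun x => ?_
    obtain ⟨a, ha, hsa⟩ := Fix_one (ρ.comp (MulAction.stabilizer H x).subtype) z
      (fun h => hz h) n hn hzn
    refine ⟨a, ha, ?_⟩
    have h1 : F x = ∑ h : MulAction.stabilizer H x,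
        LinearMap.trace ℂ V (z * (ρ.comp (MulAction.stabilizer H x).subtype) h) := by
      rw [hF]
      dsimp only
      rw [← Finset.sum_filter]
      exact Finset.sum_subtype (Finset.univ.filter (fun h : H => h • x = x))
        (fun h => by simp [MulAction.mem_stabilizer_iff])
        (fun h => LinearMap.trace ℂ V (z * ρ h))
    rw [h1, hsa, ← mul_assoc]
    congr 1
    have h2 : Nat.card (MulAction.orbit H x) * Nat.card (MulAction.stabilizer H x) =
        Nat.card H := by
      rw [← Nat.card_prod]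
      exact Nat.card_congr (MulAction.orbitProdStabilizerEquivGroup H x)
    exact_mod_cast h2
  rw [hsum]
  obtain ⟨a, ha, hc⟩ := hmem
  exact ⟨a, ha, hc⟩

end Pool.Agent.KB
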